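import Mathlib

/-! Analytic charts attached to etale morphisms. -/

namespace Pool.Agent.MP_5d9b3c_ag.H48G

open Set Filter Topology MvPolynomial

variable {F K A B G : Type} [Field F] [CommRing A] [Algebra F A] [CommRing B] [Algebra F B]
  {φ : B →ₐ[F] A} {u : G → B}

/-- A derivation at a point that kills the base vanishes. -/
theorem unr [Field K] [Algebra F K] (h : φ.toRingHom.Etale) (ω : A →ₐ[F] K) (δ : A → K)
    (h1 : ∀ a b, δ (a + b) = δ a + δ b) (h2 : ∀ a b, δ (a * b) = ω a * δ b + ω b * δ a)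
    (h4 : ∀ b, δ (φ b) = 0) (a : A) : δ a = 0 := by
  let Φ : A →+* DualNumber K :=
    { toFun := fun a => (ω a, δ a)
      map_one' := TrivSqZeroExt.ext (map_one ω) (by simpa using h4 1)
      map_mul' := fun a b => TrivSqZeroExt.ext (map_mul ω a b)
        ((h2 a b).trans (congrArg _ (mul_comm _ _)))
      map_zero' := TrivSqZeroExt.ext (map_zero ω) (by simpa using h4 0)
      map_add' := fun a b => TrivSqZeroExt.ext (map_add ω a b) (h1 a b) }
  let Φ' := (TrivSqZeroExt.inlHom K K).comp ω.toRingHom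
  let := φ.toRingHom.toAlgebra
  let := (Φ'.comp φ.toRingHom).toAlgebra
  have : Algebra.Etale B A := h
  have := Algebra.FormallyUnramified.ext' (R := B)
    (TrivSqZeroExt.fstHom K K K).toRingHom ⟨2, TrivSqZeroExt.kerIdeal_sq K K⟩
    ⟨Φ, fun b => TrivSqZeroExt.ext rfl (h4 b)⟩ ⟨Φ', fun _ => rfl⟩ fun _ => rfl
  exact congrArg TrivSqZeroExt.snd (DFunLike.congr_fun this a)

/-- An etale algebra has a presentation with as many new relations as new generators. -/
theorem pres (hu : Function.Surjective (aeval u : MvPolynomial G F →ₐ[F] B))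
    (h : φ.toRingHom.Etale) : ∃ (ι : Type) (_ : Fintype ι) (y : ι → A)
    (g : ι → MvPolynomial (ι ⊕ G) F),
      Function.Surjective (aeval (Sum.elim y (φ ∘ u)) : _ →ₐ[F] A) ∧
      (∀ i, aeval (Sum.elim y (φ ∘ u)) (g i) = 0) ∧
      RingHom.ker (aeval (Sum.elim y (φ ∘ u)) : _ →ₐ[F] A) ≤
        Ideal.span (range g ∪ rename Sum.inr '' {q | aeval u q = 0}) := by
  let := φ.toRingHom.toAlgebra
  have : IsScalarTower F B A := .of_algHom φ
  obtain ⟨ι, σ, _, _, P, hP⟩ :=
    (Algebra.Etale.iff_isStandardSmoothOfRelativeDimension_zero.1 h).out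
  obtain ⟨e⟩ := Finite.card_eq.1 (le_antisymm (Nat.sub_eq_zero_iff_le.1 hP)
    P.card_relations_le_card_vars_of_isFinite)
  let θ := (mapAlgHom (aeval u : MvPolynomial G F →ₐ[F] B)).comp (sumAlgEquiv F ι G).toAlgHom
  have hθ : Function.Surjective θ := (map_surjective _ hu).comp (sumAlgEquiv F ι G).surjective
  have e1 : aeval (Sum.elim P.val (φ ∘ u)) = ((aeval P.val).restrictScalars F).comp θ :=
    algHom_ext (Sum.rec (by simp [θ]) (by simp [θ, RingHom.algebraMap_toAlgebra]))
  choose g hg using fun i => hθ (P.relation (e i))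
  have e2 := P.span_range_relation_eq_ker
  rw [P.ker_eq_ker_aeval_val] at e2
  refine ⟨ι, Fintype.ofFinite ι, P.val, g, e1 ▸ P.aeval_val_surjective.comp hθ, fun i => ?_,
    fun q hq => ?_⟩
  · rw [e1, AlgHom.comp_apply, hg]
    exact e2.le (Ideal.subset_span ⟨_, rfl⟩)
  have h1 : q ∈ ((Ideal.span (range g)).map θ).comap θ := by
    rw [Ideal.map_span, ← range_comp, show θ ∘ g = P.relation ∘ e from funext hg,
      e.surjective.range_comp, e2]
    rwa [e1] at hq
  rw [Ideal.comap_map_of_surjective _ hθ] at h1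
  refine (sup_le (Ideal.span_mono subset_union_left) ?_ : _ ≤ Ideal.span _) h1
  intro q hq
  have h2 : sumAlgEquiv F ι G q ∈
      RingHom.ker (MvPolynomial.map (aeval u : _ →ₐ[F] B).toRingHom) := hq
  rw [MvPolynomial.ker_map] at h2
  rw [← (sumAlgEquiv F ι G).symm_apply_apply q]
  refine Ideal.map_le_iff_le_comap.2 (fun a ha => ?_ :
    _ ≤ ((Ideal.span _).comap (sumAlgEquiv F ι G).symm).comap C) h2
  exact Ideal.subset_span (.inr ⟨a, ha, (AlgEquiv.eq_symm_apply _).2
    (congrArg (fun φ => φ a) (sumAlgEquiv_comp_rename_inr F ι G))⟩)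

variable [NontriviallyNormedField K] [Algebra F K]

theorem an_ev {E κ : Type} [NormedAddCommGroup E] [NormedSpace K E] [Fintype κ] {x : E → κ → K}
    {τ : E} (h : AnalyticAt K x τ) (q : MvPolynomial κ F) :
    AnalyticAt K (fun t => aeval (x t) q) τ :=
  .aeval_mvPolynomial (fun i => (analyticAt_pi_iff.1 h) i) q

/-- The derivative along a family of points is a derivation. -/
theorem der_fam {E : Type} [NormedAddCommGroup E] [NormedSpace K E] {Ψ : E → B →ₐ[F] K} {τ : E}
    (h : ∀ s, DifferentiableAt K (Ψ · s) τ) (v : E) :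
    (∀ a b, fderiv K (Ψ · (a + b)) τ v = fderiv K (Ψ · a) τ v + fderiv K (Ψ · b) τ v) ∧
    (∀ a b, fderiv K (Ψ · (a * b)) τ v =
      Ψ τ a * fderiv K (Ψ · b) τ v + Ψ τ b * fderiv K (Ψ · a) τ v) ∧
    ∀ c, fderiv K (Ψ · (algebraMap F B c)) τ v = 0 := by
  refine ⟨fun a b => ?_, fun a b => ?_, fun c => by simp⟩
  · simp only [map_add]
    rw [fderiv_fun_add (h a) (h b)]
    rfl
  · simp only [map_mul]
    rw [fderiv_fun_mul (h a) (h b)]
    rfl

/-- The chart at a point. -/
theorem chart_at [CompleteSpace K] [Fintype G]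
    (hu : Function.Surjective (aeval u : MvPolynomial G F →ₐ[F] B)) (h : φ.toRingHom.Etale)
    (ω : A →ₐ[F] K) : ∃ Λ : A → (G → K) → K,
      (∀ᶠ τ in 𝓝 (ω ∘ φ ∘ u), (∀ a, AnalyticAt K (Λ a) τ) ∧ ∀ β : B →ₐ[F] K, β ∘ u = τ →
        ∃ Ψ : A →ₐ[F] K, Ψ.comp φ = β ∧ ∀ a, Ψ a = Λ a τ) ∧
      ∀ {α : Type} (T : Filter α) (p : α → A →ₐ[F] K), (∀ s, Tendsto (p · s) T (𝓝 (ω s))) →
        ∀ᶠ a in T, ∀ s, p a s = Λ s (p a ∘ φ ∘ u) := by
  classical
  obtain ⟨ι, _, y, g, hs, g0, hk⟩ := pres hu h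
  let x0 : ι ⊕ G → K := ω ∘ Sum.elim y (φ ∘ u)
  let H : (ι ⊕ G → K) → ι ⊕ G → K := fun x v => aeval x (Sum.elim g (X ∘ Sum.inr) v)
  have aH : AnalyticAt K H x0 := analyticAt_pi_iff.2 fun v => an_ev analyticAt_id _
  have e0 : ∀ (p : A →ₐ[F] K) q, aeval (p ∘ Sum.elim y (φ ∘ u)) q =
      p (aeval (Sum.elim y (φ ∘ u)) q) := fun p q => (comp_aeval_apply _ _ _).symm
  have e1 : ∀ q : MvPolynomial G F, aeval (Sum.elim y (φ ∘ u)) (rename Sum.inr q) =
      φ (aeval u q) := fun q => by rw [aeval_rename, comp_aeval_apply]; rfl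
  have inj : Function.Injective (fderiv K H x0).toLinearMap := by
    refine (injective_iff_map_eq_zero _).2 fun v hv => ?_
    obtain ⟨d1, d2, d3⟩ := der_fam (F := F) (Ψ := fun x : ι ⊕ G → K => aeval x) (τ := x0)
      (fun q => (an_ev analyticAt_id q).differentiableAt) v
    have k1 : ∀ w, fderiv K (fun x => aeval x (Sum.elim g (X ∘ Sum.inr) w)) x0 v = 0 := fun w => by
      have := congrFun hv w
      rwa [ContinuousLinearMap.coe_coe,
        fderiv_pi fun w => (analyticAt_pi_iff.1 aH w).differentiableAt] at this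
    have k0 : ∀ q : MvPolynomial G F, fderiv K (fun x => aeval x (rename Sum.inr q)) x0 v = 0 :=
      fun q => by
        induction q using MvPolynomial.induction_on with
        | C c => rw [rename_C]; exact d3 c
        | add a b ha hb => rw [map_add, d1, ha, hb, add_zero]
        | mul_X a i ha =>
          have k4 : fderiv K (fun x => aeval x (X (.inr i) : MvPolynomial (ι ⊕ G) F)) x0 v = 0 :=
            k1 (.inr i)
          rw [map_mul, d2, ha, rename_X, k4, mul_zero, mul_zero, add_zero]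
    have k2 : ∀ q ∈ Ideal.span (range g ∪ rename Sum.inr '' {q | aeval u q = 0}),
        fderiv K (fun x => aeval x q) x0 v = 0 := fun q hq => by
      suffices aeval x0 q = 0 ∧ fderiv K (fun x => aeval x q) x0 v = 0 from this.2
      induction hq using Submodule.span_induction with
      | mem _ h =>
        obtain ⟨i, rfl⟩ | ⟨q, hq, rfl⟩ := h
        · exact ⟨by rw [e0, g0, map_zero], k1 (.inl i)⟩
        · exact ⟨by rw [e0, e1, hq, map_zero, map_zero], k0 q⟩
      | zero => simp
      | add a b _ _ ha hb => rw [d1, map_add, ha.1, ha.2, hb.1, hb.2, add_zero, and_self]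
      | smul a b _ hb => rw [smul_eq_mul, d2, map_mul, hb.1, hb.2]; simp
    let δ : A → K := fun a => fderiv K (fun x => aeval x (Function.surjInv hs a)) x0 v
    have k3 : ∀ q, δ (aeval (Sum.elim y (φ ∘ u)) q) = fderiv K (fun x => aeval x q) x0 v :=
      fun q => by
        have := k2 (Function.surjInv hs (aeval (Sum.elim y (φ ∘ u)) q) - q) (hk (by
          rw [RingHom.mem_ker, map_sub, Function.surjInv_eq hs, sub_self]))
        rw [← add_zero (fderiv K _ x0 v), ← this, ← d1, add_sub_cancel]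
    funext w
    have := unr h ω δ (hs.forall₂.2 fun a b => by rw [← map_add, k3, k3, k3, d1])
      (hs.forall₂.2 fun a b => by rw [← map_mul, k3, k3, k3, d2, e0, e0])
      (hu.forall.2 fun q => by rw [← e1, k3, k0])
      (aeval (Sum.elim y (φ ∘ u)) (X w : MvPolynomial _ F))
    rw [k3] at this
    simp only [aeval_X, (hasFDerivAt_apply w x0).fderiv] at this
    exact this
  let f' := (LinearEquiv.ofInjectiveEndo _ inj).toContinuousLinearEquiv
  have hH : HasStrictFDerivAt H f'.toContinuousLinearMap x0 := aH.hasStrictFDerivAt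
  have aI : AnalyticAt K (hH.localInverse H f' x0) (H x0) :=
    (hH.toOpenPartialHomeomorph H).analyticAt_symm' hH.mem_toOpenPartialHomeomorph_source aH
      hH.hasFDerivAt.fderiv
  let w : (G → K) → ι ⊕ G → K := fun τ => Sum.elim 0 τ
  have aw : ∀ τ, AnalyticAt K w τ := fun τ => analyticAt_pi_iff.2
    (Sum.rec (fun _ => analyticAt_const) fun l => analyticAt_pi_iff.1 analyticAt_id l)
  have eH : ∀ p : A →ₐ[F] K, H (p ∘ Sum.elim y (φ ∘ u)) = w (p ∘ φ ∘ u) := fun p =>
    funext (Sum.rec (fun i => (e0 p _).trans (by simp [w, g0])) fun l => by simp [H, w])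
  let x := fun τ => hH.localInverse H f' x0 (w τ)
  refine ⟨fun a τ => aeval (x τ) (Function.surjInv hs a), ?_, fun T p hp => ?_⟩
  · filter_upwards [(aw _).continuousAt.eventually (eH ω ▸ hH.eventually_right_inverse),
      (aI.comp_of_eq (aw _) (eH ω).symm).eventually_analyticAt] with τ h1 h2
    refine ⟨fun a => an_ev h2 _, fun β hβ => ?_⟩
    have h3 : ∀ q : MvPolynomial G F, aeval (x τ) (rename Sum.inr q) = β (aeval u q) := fun q => by
      rw [aeval_rename, comp_aeval_apply]
      refine congrArg (aeval · q) (funext fun l => ?_)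
      simpa [H, w, ← hβ] using congrFun h1 (.inr l)
    have hl : RingHom.ker (aeval (Sum.elim y (φ ∘ u)) : _ →ₐ[F] A).toRingHom ≤
        RingHom.ker (aeval (x τ) : _ →ₐ[F] K).toRingHom := hk.trans (Ideal.span_le.2 (by
      rintro _ (⟨i, rfl⟩ | ⟨q, hq, rfl⟩)
      · exact congrFun h1 (.inl i)
      · exact (h3 q).trans (by rw [hq, map_zero])))
    refine ⟨AlgHom.liftOfSurjective _ hs _ hl, AlgHom.ext (hu.forall.2 fun q => ?_), fun a => ?_⟩
    · rw [AlgHom.comp_apply, ← e1, AlgHom.liftOfSurjective_apply, h3]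
    · rw [← AlgHom.liftOfSurjective_apply _ hs _ hl, Function.surjInv_eq hs]
  · filter_upwards [(tendsto_pi_nhds.2 fun v => hp _).eventually hH.eventually_left_inverse]
      with a h1 s
    have h2 : x (p a ∘ φ ∘ u) = p a ∘ Sum.elim y (φ ∘ u) :=
      (congrArg (hH.localInverse H f' x0) (eH (p a)).symm).trans h1
    rw [h2, e0, Function.surjInv_eq hs]

end Pool.Agent.MP_5d9b3c_ag.H48G
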