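import Mathlib

/-! Toroidal charts for an ideal over an arbitrary field. -/

namespace Pool.Agent.MP_5d9b3c_ag.H48G

open AlgebraicGeometry CategoryTheory MvPolynomial

/-- Affine space over the field `F`. -/
noncomputable abbrev Aff (F : Type) [Field F] (N : ℕ) : Scheme.{0} :=
  Spec (CommRingCat.of (MvPolynomial (Fin N) F))

variable {F : Type} [Field F] {N : ℕ} {Y : Scheme.{0}}

/-- The pull-back of polynomials to functions on the open set `U`. -/
noncomputable def pb (π : Y ⟶ Aff F N) (U : Y.Opens) : MvPolynomial (Fin N) F →+* Γ(Y, U) :=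
  ((Scheme.ΓSpecIso (CommRingCat.of (MvPolynomial (Fin N) F))).inv ≫ π.appLE ⊤ U le_top).hom

/-- The complement of the zero set of `I`. -/
def off (I : Ideal (MvPolynomial (Fin N) F)) : (Aff F N).Opens :=
  ⟨(PrimeSpectrum.zeroLocus (I : Set (MvPolynomial (Fin N) F)))ᶜ,
    (PrimeSpectrum.isClosed_zeroLocus _).isOpen_compl⟩

/-- `D` is a derivation that kills the constants. -/
def IsDer {A : Type} [CommRing A] (c : F →+* A) (D : A → A) : Prop :=
  (∀ x y, D (x + y) = D x + D y) ∧ (∀ x y, D (x * y) = x * D y + y * D x) ∧ ∀ t, D (c t) = 0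

/-- The Jacobian determinant of `π` in the logarithmic frame of the characters `φ` is a unit times
the character `κ`. -/
def Jac (π : Y ⟶ Aff F N) (U : Y.Opens) {S : AddSubmonoid (Fin N → ℤ)}
    (φ : AddMonoidAlgebra F S →+* Γ(Y, U)) (κ : S) : Prop :=
  ∃ D : Fin N → Γ(Y, U) → Γ(Y, U),
    (∀ l, IsDer ((pb π U).comp C) (D l) ∧ ∀ s, D l (φ (.single s 1)) = s.1 l • φ (.single s 1)) ∧
    Ideal.span {(Matrix.of fun i l => D l (pb π U (X i))).det} = Ideal.span {φ (.single κ 1)}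

/-- Some vectors generate the cone dual to `S`, and the ratios of their pairings with `κ` and `m`
lie in `R`. -/
def Rays (S : AddSubmonoid (Fin N → ℤ)) (m κ : Fin N → ℤ) (R : Set ℚ) : Prop :=
  ∃ V : Finset (Fin N → ℤ),
    (∀ w, (∀ s ∈ S, 0 ≤ w ⬝ᵥ s) ↔ ∃ d : ℕ, 0 < d ∧ d • w ∈ AddSubmonoid.closure (V : Set _)) ∧
    ∀ v ∈ V, 0 < v ⬝ᵥ κ ∧ (v ⬝ᵥ m ≠ 0 → ((v ⬝ᵥ κ : ℤ) : ℚ) / (v ⬝ᵥ m : ℤ) ∈ R)

/-- A toric chart at `x`: an affine neighbourhood that is etale over the toric variety of a monoid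
`S`, on which `I` is generated by the character `m` and the logarithmic Jacobian determinant by the
character `κ`, such that the ratios on the rays lie in `R`. -/
def Chart (I : Ideal (MvPolynomial (Fin N) F)) (π : Y ⟶ Aff F N) (R : Set ℚ) (x : Y) : Prop :=
  ∃ (U : Y.Opens) (S : AddSubmonoid (Fin N → ℤ)) (φ : AddMonoidAlgebra F S →+* Γ(Y, U)) (m κ : S),
    x ∈ U ∧ IsAffineOpen U ∧ S.FG ∧ AddSubgroup.closure (S : Set (Fin N → ℤ)) = ⊤ ∧
    φ.Etale ∧ φ.comp (algebraMap F _) = (pb π U).comp C ∧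
    I.map (pb π U) = Ideal.span {φ (.single m 1)} ∧ Jac π U φ κ ∧ Rays S m κ R

/-- `π` is proper, an isomorphism off the zero set of `I`, and has a toric chart at each point with
values in `ℚ_[p]` that lies over `ℤ_[p] ^ N`. -/
def Toroidal (p : ℕ) [Fact p.Prime] [Algebra F ℚ_[p]] (I : Ideal (MvPolynomial (Fin N) F))
    (π : Y ⟶ Aff F N) (R : Set ℚ) : Prop :=
  IsProper π ∧ IsIso (π ∣_ off I) ∧
    ∀ (a : Fin N → ℤ_[p]) (l : Spec (CommRingCat.of ℚ_[p]) ⟶ Y),
      l ≫ π = Spec.map (CommRingCat.ofHom (eval₂Hom (algebraMap F ℚ_[p]) fun i => a i)) →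
      ∀ x, Chart I π R (l x)

end Pool.Agent.MP_5d9b3c_ag.H48G
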