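import Pool.Agent.MP_5d9b3c_ag.H48G.Defs

/-! The identity map is toroidal for a monomial. -/

namespace Pool.Agent.MP_5d9b3c_ag.H48G

open AlgebraicGeometry CategoryTheory MvPolynomial

variable {F : Type} [Field F] {N : ℕ}

/-- The vectors with natural entries. -/
noncomputable def nn (N : ℕ) : AddSubmonoid (Fin N → ℤ) := AddSubmonoid.nonneg _

/-- The same vectors as exponents. -/
noncomputable def nnE (N : ℕ) : (Fin N →₀ ℕ) ≃+ nn N where
  toFun a := ⟨fun i => a i, fun i => Int.natCast_nonneg _⟩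
  invFun s := Finsupp.equivFunOnFinite.symm fun i => (s.1 i).toNat
  left_inv a := by ext; simp
  right_inv s := by ext i; simpa using s.2 i
  map_add' a b := by ext; simp

theorem pb_bij : Function.Bijective (pb (𝟙 (Aff F N)) ⊤) := by
  have : pb (𝟙 (Aff F N)) ⊤ = (Scheme.ΓSpecIso (CommRingCat.of (MvPolynomial (Fin N) F))).inv.hom := by
    rw [pb]
    simp [Scheme.Hom.appLE]
  rw [this]
  exact (Scheme.ΓSpecIso _).symm.commRingCatIsoToRingEquiv.bijective

theorem chart_id (m : Fin N →₀ ℕ) (x : Aff F N) :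
    Chart (Ideal.span {monomial m (1 : F)}) (𝟙 _) {q | ∃ i, q = 1 / m i} x := by
  classical
  let e := RingEquiv.ofBijective _ (pb_bij (F := F) (N := N))
  let ψ : AddMonoidAlgebra F (nn N) ≃+* MvPolynomial (Fin N) F :=
    (AddMonoidAlgebra.domCongr F F (nnE N).symm).toRingEquiv
  have hψ : ∀ s, ψ (.single s 1) = monomial ((nnE N).symm s) 1 := fun s => by
    simp [ψ]; rfl
  have he : ∀ a, pb (𝟙 (Aff F N)) ⊤ a = e a := fun _ => rfl
  refine ⟨⊤, nn N, (ψ.trans e).toRingHom, nnE N m, nnE N (∑ i, .single i 1), trivial,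
    isAffineOpen_top _, ?_, ?_, RingHom.Etale.of_bijective (ψ.trans e).bijective, ?_, ?_,
    ⟨fun l a => e (X l * pderiv l (e.symm a)), fun l => ⟨⟨?_, ?_, ?_⟩, ?_⟩, ?_⟩,
    Finset.univ.image fun i => Pi.single i 1, ?_, ?_⟩
  · have : AddMonoid.FG (Fin N →₀ ℕ) := Module.Finite.iff_addMonoid_fg.1 inferInstance
    exact (AddMonoid.fg_iff_addSubmonoid_fg _).1 (AddMonoid.fg_of_surjective
      (nnE N).toAddMonoidHom (nnE N).surjective)
  · refine eq_top_iff.2 fun w _ => ?_
    rw [← posPart_sub_negPart w]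
    exact sub_mem (AddSubgroup.subset_closure (posPart_nonneg w))
      (AddSubgroup.subset_closure (negPart_nonneg w))
  · ext t
    simp [he, ψ]
    rfl
  · rw [Ideal.map_span, Set.image_singleton]
    simp [hψ, he]
  · intro a b; simp [mul_add]
  · intro a b
    apply e.symm.injective
    simp
    ring
  · intro t; simp [he]
  · intro s
    obtain ⟨a, rfl⟩ := (nnE N).surjective s
    apply e.symm.injective
    simpa [hψ, nnE] using X_mul_pderiv_monomial (i := l) (m := a) (r := (1 : F))
  · have : (Matrix.of fun i l => e (X l * pderiv l (e.symm (pb (𝟙 (Aff F N)) ⊤ (X i))))) =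
        Matrix.diagonal fun i => e (X i) := by
      ext i l
      by_cases h : i = l <;> simp [he, h, pderiv_X]
    rw [this, Matrix.det_diagonal, ← map_prod]
    simp [hψ, monomial_sum_one, X]
  · intro w
    constructor
    · intro h
      refine ⟨1, one_pos, ?_⟩
      rw [one_smul, ← Finset.univ_sum_single w]
      refine sum_mem fun i _ => ?_
      have h1 : 0 ≤ w i := by simpa using h (Pi.single i 1) (Pi.single_nonneg.2 zero_le_one)
      have : (Pi.single i (w i) : Fin N → ℤ) = (w i).toNat • Pi.single i 1 := by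
        ext j; by_cases hj : j = i <;> simp [hj, h1]
      rw [this]
      exact nsmul_mem (AddSubmonoid.subset_closure (by simp)) _
    · rintro ⟨d, hd, h⟩ s hs
      have h1 : 0 ≤ d • w := AddSubmonoid.closure_induction (motive := fun x _ => 0 ≤ x) (fun x hx => by
        obtain ⟨i, -, rfl⟩ := Finset.mem_image.1 hx
        exact Pi.single_nonneg.2 zero_le_one) le_rfl (fun _ _ _ _ => add_nonneg) h
      exact dotProduct_nonneg_of_nonneg (fun i => by
        simpa [hd] using h1 i) hs
  · intro v hv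
    obtain ⟨i, -, rfl⟩ := Finset.mem_image.1 hv
    simp [nnE, Finsupp.single_apply]

theorem toroidal_id (p : ℕ) [Fact p.Prime] [Algebra F ℚ_[p]] (m : Fin N →₀ ℕ) :
    Toroidal p (Ideal.span {monomial m (1 : F)}) (𝟙 _) {q | ∃ i, q = 1 / m i} :=
  ⟨inferInstance, inferInstance, fun _ _ _ _ => chart_id m _⟩

end Pool.Agent.MP_5d9b3c_ag.H48G
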