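import Pool.Agent.MP_5d9b3c_ag.H10.ToBS
import Pool.Agent.MP_5d9b3c_ag.H10.Count

/-! The functional equation of one polynomial, and poles over the complex numbers. -/

namespace Pool.Agent.MP_5d9b3c_ag.H48G

open MvPolynomial Pool.Agent.MP_ee8c61_ag.H10 H72 H10

theorem isBS_one {σ : Type} (f : Fin 1 → MvPolynomial σ ℂ) (b : Polynomial ℂ)
    (hb : IsBFunction (rename (Sum.inr : σ → Fin 0 ⊕ σ) (f 0)) b) : IsBS f b := by
  obtain ⟨d, P, hP, h⟩ := hb
  set F : MvPolynomial (Fin 0 ⊕ σ) ℂ := rename Sum.inr (f 0) with hF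
  have e : ∀ (s : Fin 0 → ℕ) n, lam s (F ^ n) = f 0 ^ n := fun s n => by
    rw [hF, ← map_pow, ← mul_one (rename _ _), lam_x, lam_one, if_pos (Subsingleton.elim _ _),
      mul_one]
  have base : (fun m s => lam s (F ^ (m + 1))) ∈ ZZ fun m => F ^ (m + 1) := by
    refine (congrArg (· ∈ ZZ _) ?_).mp (gen_mem' (fun m => F ^ (m + 1)) 1 1 [] 0)
    ext1 m; ext1 s
    simp [gen, e]
  have h2 := sum_mem (t := Finset.range d) fun t _ => ZZ_map (G := fun m => F ^ (m + 1)) (WS f)
    (fun g s => (s 0 : ℂ) ^ t • g (s 0) 0) (by ext1; simp) (fun a b => by ext1; simp)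
    (fun q a L c => ⟨{1}, fun _ => Finsupp.single L (C (C (eval 0 q) * X 0 ^ t) * map C a),
      by simp, fun s => by
        have e0 : map (eval fun j => (s j : ℂ)) (map C a) = a := by
          rw [map_map, show (eval fun j => (s j : ℂ)).comp (C : ℂ →+* MvPolynomial (Fin 1) ℂ) =
            RingHom.id ℂ from RingHom.ext fun _ => eval_C _, map_id]
        beta_reduce
        rw [Finset.sum_singleton, act, Finsupp.sum_single_index (by simp), gen, map_mul, map_C, e0,
          e, Subsingleton.elim (fun j => ((0 : Fin 0 → ℕ) j : ℂ)) 0]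
        simp [smul_eq_C_mul]
        ring⟩) _ (ZZ_weyl (hP t) _ base)
  refine (congrArg (· ∈ WS f) ?_).mp h2
  ext1 s
  have h3 := congrArg (lam 0) (h (s 0))
  simp only [map_smul, map_sum, e] at h3
  rw [Finset.sum_apply, h3]
  simp [smul_eq_C_mul]

open Polynomial in
theorem no_pole {S : PowerSeries ℚ} {A B : ℚ[X]} {P Q : ℂ[X]} (hAB : IsCoprime A B)
    (hP : (B : PowerSeries ℚ) * S = A) {T : ℂ} (hT : Polynomial.aeval T B = 0)
    (h : (Q : PowerSeries ℂ) * S.map (algebraMap ℚ ℂ) = P) : Q.eval T = 0 := by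
  have h5 : Q * A.map (algebraMap ℚ ℂ) = B.map (algebraMap ℚ ℂ) * P := by
    apply Polynomial.coe_injective
    rw [Polynomial.coe_mul, Polynomial.coe_mul, ← h, Polynomial.polynomial_map_coe,
      Polynomial.polynomial_map_coe, ← hP, map_mul]
    ring
  have h6 := (hAB.map (mapRingHom (algebraMap ℚ ℂ))).symm
  rw [coe_mapRingHom] at h6
  obtain ⟨R, hR⟩ := h6.dvd_of_dvd_mul_right ⟨P, h5⟩
  rw [hR, Polynomial.eval_mul, Polynomial.eval_map_algebraMap, hT, zero_mul]

end Pool.Agent.MP_5d9b3c_ag.H48G
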