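import Pool.Agent.MP_5d9b3c_ag.H48G.Defs
import Pool.Agent.MP_ee8c61_ag.H95G.Cert

/-! The polynomial attached to a family of generators, and the certified ratios. -/

namespace Pool.Agent.MP_5d9b3c_ag.H48G

open MvPolynomial

/-- The polynomial `f_0(x) + y_1 f_1(x) + ⋯ + y_r f_r(x)` in `r + N` variables. -/
noncomputable def comb {r N : ℕ} (f : Fin (r + 1) → MvPolynomial (Fin N) ℤ) :
    MvPolynomial (Fin r ⊕ Fin N) ℤ :=
  rename Sum.inr (f 0) + ∑ i : Fin r, X (Sum.inl i) * rename Sum.inr (f i.succ)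

/-- The number one, and the ratios of the divisors that are ample or compute a threshold. -/
def ratios {N : ℕ} (I : Ideal (MvPolynomial (Fin N) ℂ)) : Set ℚ :=
  {q | q = 1 ∨ ∃ α κ : ℕ, MP_ee8c61_ag.H95G.Cert I α κ 1 ∧ q = (κ + 1) / α}

end Pool.Agent.MP_5d9b3c_ag.H48G
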