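import Pool.Agent.MP_5d9b3c_ag.H48G.Loc
import Pool.Agent.MP_5d9b3c_ag.H48G.One
import Pool.Agent.MP_5d9b3c_ag.H48G.Stmt
import Pool.Agent.MP_5d9b3c_ag.H22.Lift
import Pool.Agent.MP_ee8c61_ag.H95G.Final

/-! The strong monodromy conjecture on a toroidal model with certified ratios. -/

namespace Pool.Agent.MP_5d9b3c_ag.H48G

open AlgebraicGeometry MvPolynomial Set H72 H10 Pool.Agent.MP_ee8c61_ag

variable {p : ℕ} [Fact p.Prime] {F : Type} [Field F] [Algebra F ℚ_[p]] {N : ℕ} {Y : Scheme.{0}}
  {π : Y ⟶ Aff F N} {T : ℂ} {b : Polynomial ℂ}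

theorem core (hroot : H95G.Root) {s : ℕ} (g : Fin s → MvPolynomial (Fin N) ℤ) (hg : g ≠ 0)
    (h : Toroidal p (Ideal.span (range fun j => map (Int.castRingHom F) (g j))) π
      (ratios (Ideal.span (range fun j => map (Int.castRingHom ℂ) (g j)))))
    (hb : MP_ee8c61_ag.H10.IsBS (fun j => map (Int.castRingHom ℂ) (g j)) b)
    (h1 : b.eval (-1) = 0) (hne : b.eval ((-(Real.log ‖T‖ / Real.log p) : ℝ) : ℂ) ≠ 0) :
    ∃ D P : Polynomial ℂ, D.eval T ≠ 0 ∧
      (D : PowerSeries ℂ) * (wser g p).map (algebraMap ℚ ℂ) = P := by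
  obtain ⟨D, P, h2, h3⟩ := igusa (T := T) g hg h fun q hq e => hne (by
    rw [← e]
    rcases hq with rfl | ⟨α, κ, hc, rfl⟩
    · simpa using h1
    have hα : 0 < α := by
      obtain ⟨_, _, _, _, _, a, k, W, _, hY, hW, h4, -⟩ := hc
      obtain ⟨j, rfl⟩ := Finset.card_eq_one.1 hW
      have h5 := (h4 j (Finset.mem_singleton_self j)).2
      have h6 := (hY.comp j).2.2
      exact Nat.pos_of_ne_zero fun h7 => by simp [h7, h6.ne'] at h5
    have h4 := H95G.cert_dvd hroot _ b hb hα hc
    rw [pow_one, Polynomial.dvd_iff_isRoot] at h4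
    simpa using h4)
  refine ⟨D, P, h2, Eq.trans (congrArg _ ?_) h3⟩
  ext n
  simp [wser]

theorem main (hroot : H95G.Root) {r : ℕ} (f : Fin (r + 1) → MvPolynomial (Fin N) ℤ)
    (hr : r = 0 ∨ f 0 = 0) (hf : (comb f).totalDegree ≠ 0)
    (h : Toroidal p (Ideal.span (range fun j => map (Int.castRingHom F) (f j))) π
      (ratios (Ideal.span (range fun j => map (Int.castRingHom ℂ) (f j)))))
    {A B : Polynomial ℚ} (hAB : IsCoprime A B)
    (hP : (B : PowerSeries ℚ) * poincare (comb f) p = A) (hT : Polynomial.aeval T B = 0)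
    (hb : IsBFunction (map (Int.castRingHom ℂ) (comb f)) b) :
    b.eval ((-(Real.log ‖T‖ / Real.log p) : ℝ) : ℂ) = 0 := by
  by_contra hne
  have hp : p.Prime := Fact.out
  have h1 : b.eval (-1) = 0 := by
    obtain ⟨d, P, h7, h8⟩ := hb
    refine H22.root_neg_one (fun h9 => hf ?_) h7 h8
    rwa [totalDegree, support_map_of_injective _ Int.cast_injective] at h9
  have h0 : f ≠ 0 := by
    rintro rfl
    simp [comb] at hf
  rcases hr with rfl | hr
  · have e : comb f = rename Sum.inr (f 0) := by simp [comb]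
    rw [e, map_rename] at hb
    obtain ⟨D, P, h2, h3⟩ := core hroot f h0 h (isBS_one _ b hb) h1 hne
    refine h2 (no_pole hAB hP hT (Eq.trans (congrArg (_ * PowerSeries.map _ ·) ?_) h3))
    ext n
    rw [poincare, wser, PowerSeries.coeff_mk, PowerSeries.coeff_mk, e]
    congr 2
    · refine Nat.card_congr ((Equiv.sumArrowEquivProdArrow _ _ _).trans
        (Equiv.uniqueProd _ _) |>.subtypeEquiv fun x => ?_)
      rw [aeval_rename, Fin.forall_fin_one]
      rfl
    · simp
  · have e : comb f = H10.lin fun i => f i.succ := by simp [comb, H10.lin, hr]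
    have e1 : ∀ (K : Type) [Field K], Ideal.span (range fun j => map (Int.castRingHom K) (f j)) =
        Ideal.span (range fun j : Fin r => map (Int.castRingHom K) (f j.succ)) := fun K _ => by
      rw [Fin.range_fin_succ, hr, map_zero, Ideal.span_insert_zero]
      rfl
    rw [e1, e1] at h
    rw [e] at hb hP
    simp only [H10.lin, map_sum, map_mul, map_X, map_rename] at hb
    obtain ⟨D, P, h2, h3⟩ := core hroot _ (fun h4 => h0 (funext fun j =>
      Fin.cases hr (congrFun h4) j)) h (isBS_of _ b hb) h1 hne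
    have h4 := congrArg (PowerSeries.map (algebraMap ℚ ℂ)) (countN hp fun i : Fin r => f i.succ)
    have h5 := no_pole hAB hP hT (Q := D * (1 - Polynomial.C (p : ℂ)⁻¹ * Polynomial.X))
      (P := Polynomial.C (p : ℂ)⁻¹ * D + Polynomial.C (1 - (p : ℂ)⁻¹) * P) (by
        simp only [map_mul, map_sub, map_add, map_one, PowerSeries.map_C, PowerSeries.map_X,
          map_inv₀, map_natCast] at h4
        simp only [Polynomial.coe_sub, Polynomial.coe_mul, Polynomial.coe_X, Polynomial.coe_C,
          Polynomial.coe_one, Polynomial.coe_add, mul_assoc, h4, ← h3, map_sub, map_one]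
        ring)
    have hp0 : (p : ℂ) ≠ 0 := Nat.cast_ne_zero.2 hp.ne_zero
    have h6 : T = p := by
      simp only [Polynomial.eval_mul, h2, Polynomial.eval_sub, Polynomial.eval_one, mul_eq_zero,
        Polynomial.eval_C, Polynomial.eval_X, false_or] at h5
      exact ((inv_mul_eq_one₀ hp0).1 (sub_eq_zero.1 h5).symm).symm
    rw [h6, Complex.norm_natCast, div_self (Real.log_pos (Nat.one_lt_cast.2 hp.one_lt)).ne'] at hne
    exact hne (by simpa using h1)

end Pool.Agent.MP_5d9b3c_ag.H48G
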