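import Mathlib

/-! Generating series of lattice points in polyhedra have poles only along the rays. -/

namespace Pool.Agent.MP_5d9b3c_ag.H48G

open Set Polynomial

/-- The generating series of `G` is a rational function without pole at `T`. -/
def Reg (T : ℂ) (G : ℤ → ℂ) : Prop :=
  ∃ D P : ℂ[X], D.eval T ≠ 0 ∧ (D : PowerSeries ℂ) * PowerSeries.mk (fun n : ℕ => G n) = P

variable {T : ℂ} {G H : ℤ → ℂ}

theorem Reg.congr (h : Reg T G) (e : ∀ n : ℕ, H n = G n) : Reg T H := by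
  simpa only [Reg, e] using h

theorem Reg.add (h : Reg T G) (h' : Reg T H) : Reg T fun n => G n + H n := by
  obtain ⟨D, P, h1, h2⟩ := h
  obtain ⟨D', P', h3, h4⟩ := h'
  refine ⟨D * D', D' * P + D * P', by simp [h1, h3], ?_⟩
  rw [show PowerSeries.mk (fun n : ℕ => G n + H n) = PowerSeries.mk (fun n : ℕ => G n) +
    PowerSeries.mk fun n : ℕ => H n by ext; simp]
  push_cast
  rw [← h2, ← h4]
  ring

theorem Reg.mul (h : Reg T G) (c : ℂ) : Reg T fun n => c * G n := by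
  obtain ⟨D, P, h1, h2⟩ := h
  refine ⟨D, C c * P, h1, ?_⟩
  rw [show PowerSeries.mk (fun n : ℕ => c * G n) = PowerSeries.C c *
    PowerSeries.mk (fun n : ℕ => G n) by ext; simp]
  push_cast
  rw [← h2]
  ring

theorem mk_shift (G : ℤ → ℂ) (a : ℕ) : ∃ Q : ℂ[X], PowerSeries.mk (fun n : ℕ => G (n - a)) =
    PowerSeries.X ^ a * PowerSeries.mk (fun n : ℕ => G n) + (Q : PowerSeries ℂ) := by
  refine ⟨PowerSeries.trunc a (PowerSeries.mk fun n : ℕ => G (n - a)), ?_⟩
  ext n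
  rw [map_add, PowerSeries.coeff_X_pow_mul', coeff_coe, PowerSeries.coeff_trunc]
  by_cases h : a ≤ n
  · simp [h, h.not_gt]
  · simp [h, not_le.1 h]

theorem Reg.shift (h : Reg T G) (a : ℕ) : Reg T fun n => G (n - a) := by
  obtain ⟨D, P, h1, h2⟩ := h
  obtain ⟨Q, e⟩ := mk_shift G a
  refine ⟨D, X ^ a * P + D * Q, h1, ?_⟩
  push_cast
  rw [e, ← h2]
  ring

theorem Reg.of_rec {c : ℂ} {a : ℕ} (h : Reg T fun n => G n - c * G (n - a))
    (hc : c * T ^ a ≠ 1) : Reg T G := by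
  obtain ⟨D, P, h1, h2⟩ := h
  obtain ⟨Q, e⟩ := mk_shift G a
  refine ⟨D * (1 - C c * X ^ a), P + D * C c * Q, by simp [h1, sub_ne_zero.2 hc.symm], ?_⟩
  rw [show PowerSeries.mk (fun n : ℕ => G n - c * G (n - a)) = PowerSeries.mk (fun n : ℕ => G n) -
    PowerSeries.C c * PowerSeries.mk fun n : ℕ => G (n - a) by ext; simp, e] at h2
  push_cast
  rw [← h2]
  ring

theorem Reg.of_zero (a : ℕ) (h : ∀ n : ℕ, a ≤ n → G n = 0) : Reg T G := by
  refine ⟨1, PowerSeries.trunc a (PowerSeries.mk fun n : ℕ => G n), by simp, ?_⟩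
  ext n
  rw [coeff_coe, PowerSeries.coeff_trunc]
  by_cases k : n < a
  · simp [k]
  · simp [k, h n (not_lt.1 k)]

section HS

variable {L : Type} [AddCommGroup L] {P : Set L} {Λ : Set L → ℂ} {h : L → ℤ} {a : L → ℕ}
  {ρ : L → ℂ}

theorem mem_ins {v x : L} {V : Set L} (hx : x ∈ AddSubmonoid.closure (insert v V)) :
    x ∈ AddSubmonoid.closure V ∨ x - v ∈ AddSubmonoid.closure (insert v V) := by
  have m : AddSubmonoid.closure V ≤ AddSubmonoid.closure (insert v V) :=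
    AddSubmonoid.closure_mono (subset_insert _ _)
  induction hx using AddSubmonoid.closure_induction with
  | mem x hx =>
    exact hx.elim (fun e => .inr (by simp [e])) fun e => .inl (AddSubmonoid.subset_closure e)
  | zero => exact .inl (zero_mem _)
  | add x y hx hy k1 k2 =>
    rcases k1 with k1 | k1
    · exact k2.imp (add_mem k1) fun k2 => add_sub_assoc x y v ▸ add_mem hx k2
    · exact .inr (add_sub_right_comm x y v ▸ add_mem k1 hy)

theorem hs (hadd : ∀ Q ⊆ P, ∀ Q' ⊆ P, Disjoint Q Q' → Λ (Q ∪ Q') = Λ Q + Λ Q') (V : Finset L)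
    (hV : ∀ v ∈ V, (∀ w ∈ P, w + v ∈ P) ∧ (∀ w, h (w + v) = h w + a v) ∧
      (∀ Q ⊆ P, Λ ((· + v) '' Q) = ρ v * Λ Q) ∧ ρ v * T ^ a v ≠ 1) :
    ∀ Q ⊆ P, (∀ s : ℕ → L, (∀ n, s n ∈ Q) →
      ∃ i j, i < j ∧ s j - s i ∈ AddSubmonoid.closure (V : Set L)) →
      (∀ w ∈ Q, ∀ c ∈ AddSubmonoid.closure (V : Set L), ∀ d ∈ AddSubmonoid.closure (V : Set L),
        w + c + d ∈ Q → w + c ∈ Q) → Reg T fun n => Λ (Q ∩ {w | n ≤ h w}) := by
  classical
  induction V using Finset.induction_on with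
  | empty =>
    intro Q hQ h1 _
    have h2 : Q.Finite := by
      by_contra k
      obtain ⟨i, j, k1, k2⟩ := h1 (fun n => (Set.Infinite.natEmbedding Q k n).1)
        fun n => Subtype.prop _
      simp only [Finset.coe_empty, AddSubmonoid.closure_empty, AddSubmonoid.mem_bot,
        sub_eq_zero] at k2
      exact k1.ne' ((Set.Infinite.natEmbedding Q k).injective (Subtype.ext k2))
    obtain ⟨M, hM⟩ := (h2.image h).bddAbove
    refine .of_zero (M + 1).toNat fun n hn => ?_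
    have h3 : Q ∩ {w | (n : ℤ) ≤ h w} = ∅ := eq_empty_of_forall_notMem fun w hw => by
      have := hM ⟨w, hw.1, rfl⟩
      have : (n : ℤ) ≤ h w := hw.2
      omega
    have h4 := hadd ∅ (empty_subset _) ∅ (empty_subset _) (by simp)
    rw [h3]
    simpa using h4
  | insert v V _ ih =>
    intro Q hQ h1 h2
    replace ih := ih fun w hw => hV w (Finset.mem_insert_of_mem hw)
    obtain ⟨v1, v2, v3, v4⟩ := hV v (Finset.mem_insert_self _ _)
    rw [Finset.coe_insert] at h1 h2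
    have m : AddSubmonoid.closure (V : Set L) ≤ AddSubmonoid.closure (insert v V) :=
      AddSubmonoid.closure_mono (subset_insert _ _)
    have mv : v ∈ AddSubmonoid.closure (insert v (V : Set L)) :=
      AddSubmonoid.subset_closure (mem_insert _ _)
    have k1 := ih {w ∈ Q | w - v ∉ Q} (fun w hw => hQ hw.1) (fun s hs => by
      obtain ⟨i, j, k1, k2⟩ := h1 s fun n => (hs n).1
      refine ⟨i, j, k1, (mem_ins k2).resolve_right fun k => (hs j).2 ?_⟩
      have := h2 _ (hs i).1 _ k _ mv (by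
        rw [show s i + (s j - s i - v) + v = s j by abel]; exact (hs j).1)
      rwa [show s i + (s j - s i - v) = s j - v by abel] at this)
      fun w hw c hc d hd k => ⟨h2 w hw.1 c (m hc) d (m hd) k.1, fun k' => k.2 (by
        have := h2 _ k' d (m hd) v mv (by
          rw [show w + c - v + d + v = w + c + d by abel]; exact k.1)
        rwa [show w + c - v + d = w + c + d - v by abel] at this)⟩
    have k2 := ih {w ∈ Q | w + v ∉ Q} (fun w hw => hQ hw.1) (fun s hs => by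
      obtain ⟨i, j, k1, k2⟩ := h1 s fun n => (hs n).1
      refine ⟨i, j, k1, (mem_ins k2).resolve_right fun k => (hs i).2 ?_⟩
      exact h2 _ (hs i).1 _ mv _ k (by simpa using (hs j).1))
      fun w hw c hc d hd k => ⟨h2 w hw.1 c (m hc) d (m hd) k.1, fun k' => hw.2
        (h2 w hw.1 v mv c (m hc) (add_right_comm w c v ▸ k'))⟩
    refine .of_rec ((k1.add ((k2.shift (a v)).mul (-ρ v))).congr fun n => ?_) v4
    have e1 := hadd ({w ∈ Q | w - v ∉ Q} ∩ {w | n ≤ h w}) (fun w hw => hQ hw.1.1)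
      ({w ∈ Q | w - v ∈ Q} ∩ {w | n ≤ h w}) (fun w hw => hQ hw.1.1)
      (disjoint_left.2 fun w k k' => k.1.2 k'.1.2)
    have e2 := hadd ({w ∈ Q | w + v ∉ Q} ∩ {w | n - a v ≤ h w}) (fun w hw => hQ hw.1.1)
      ({w ∈ Q | w + v ∈ Q} ∩ {w | n - a v ≤ h w}) (fun w hw => hQ hw.1.1)
      (disjoint_left.2 fun w k k' => k.1.2 k'.1.2)
    have e3 := v3 ({w ∈ Q | w + v ∈ Q} ∩ {w | n - a v ≤ h w}) fun w hw => hQ hw.1.1
    rw [← union_inter_distrib_right, ← sep_or, sep_eq_self_iff_mem_true.2 fun _ _ => em' _]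
      at e1 e2
    rw [show (· + v) '' ({w ∈ Q | w + v ∈ Q} ∩ {w | n - a v ≤ h w}) =
      {w ∈ Q | w - v ∈ Q} ∩ {w | n ≤ h w} from Set.ext fun w => ⟨by
        rintro ⟨w, ⟨⟨k1, k2⟩, k3⟩, rfl⟩
        exact ⟨⟨k2, by simpa using k1⟩, by simpa [v2] using k3⟩, fun k =>
        ⟨w - v, ⟨⟨k.1.2, by simpa using k.1.1⟩, by
          have := v2 (w - v)
          have k3 : (n : ℤ) ≤ h w := k.2
          rw [sub_add_cancel] at this
          change _ ≤ h (w - v)
          omega⟩, sub_add_cancel _ _⟩⟩] at e3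
    linear_combination e1 - ρ v * e2 + e3

end HS

/-- Lattice points of a polyhedron are well-quasi-ordered by the rays of its recession cone. -/
theorem pwo {N : ℕ} {ι : Type} [Finite ι] (ℓ : ι → (Fin N → ℤ) →+ ℤ)
    (hℓ : ∀ w, (∀ g, ℓ g w = 0) → w = 0) {V : Set (Fin N → ℤ)}
    (hV : ∀ w, (∀ g, 0 ≤ ℓ g w) ↔ ∃ d : ℕ, 0 < d ∧ d • w ∈ AddSubmonoid.closure V) (E : Set ι)
    (b : ι → ℤ) (s : ℕ → Fin N → ℤ) (h1 : ∀ n g, b g ≤ ℓ g (s n))
    (h2 : ∀ n, ∀ g ∈ E, ℓ g (s n) = b g) :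
    ∃ i j, i < j ∧ s j - s i ∈ AddSubmonoid.closure {v ∈ V | ∀ g ∈ E, ℓ g v = 0} := by
  let M : AddSubmonoid (ι → ℕ) :=
    { carrier := {x | ∃ w, ∀ g, ℓ g w = x g}
      zero_mem' := ⟨0, by simp⟩
      add_mem' := fun ⟨w, h⟩ ⟨w', h'⟩ => ⟨w + w', by simp [h, h']⟩ }
  obtain ⟨H, hH⟩ := AddSubmonoid.fg_of_subtractive (P := M) fun x ⟨w, h⟩ y ⟨w', h'⟩ =>
    ⟨w' - w, by simp [h, h']⟩
  choose w hw using fun x : H => hH.le (AddSubmonoid.mem_closure_of_mem x.2)
  choose d d1 d2 using fun x : H => (hV (w x)).1 fun g => by simp [hw]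
  have hD : 0 < ∏ x, d x := Finset.prod_pos fun x _ => d1 x
  have k1 : ∀ x ∈ AddSubmonoid.closure (H : Set (ι → ℕ)), ∃ w, (∀ g, ℓ g w = x g) ∧
      (∏ x, d x) • w ∈ AddSubmonoid.closure V := fun x hx => by
    induction hx using AddSubmonoid.closure_induction with
    | mem x hx =>
      obtain ⟨c, hc⟩ := Finset.dvd_prod_of_mem d (Finset.mem_univ ⟨x, hx⟩)
      exact ⟨_, hw ⟨x, hx⟩, by rw [hc, mul_comm, mul_smul]; exact nsmul_mem (d2 _) _⟩
    | zero => exact ⟨0, by simp⟩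
    | add x y _ _ k k' =>
      obtain ⟨w, k1, k2⟩ := k
      obtain ⟨w', k3, k4⟩ := k'
      exact ⟨w + w', by simp [k1, k3], by rw [smul_add]; exact add_mem k2 k4⟩
  generalize ∏ x, d x = D at hD k1
  have : NeZero D := ⟨hD.ne'⟩
  obtain ⟨i, j, hij, k2, k3⟩ := ((wellQuasiOrdered_le (α := ι → ℕ)).prod
    (Finite.wellQuasiOrdered (α := Fin N → ZMod D) (· = ·)))
    fun n => (fun g => (ℓ g (s n) - b g).toNat, fun l => (s n l : ZMod D))
  choose u hu using fun l => (ZMod.intCast_eq_intCast_iff_dvd_sub _ _ _).1 (congrFun k3 l)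
  have e : s j - s i = D • u := funext fun l => by simp [hu]
  have k4 : ∀ g, 0 ≤ ℓ g u := fun g => by
    have k5 : (ℓ g (s i) - b g).toNat ≤ (ℓ g (s j) - b g).toNat := k2 g
    have k6 : ℓ g (s j) - ℓ g (s i) = D * ℓ g u := by rw [← map_sub, e, map_nsmul, nsmul_eq_mul]
    have := h1 i g
    have := h1 j g
    exact (mul_nonneg_iff_of_pos_left (by exact_mod_cast hD : (0 : ℤ) < D)).1 (by omega)
  obtain ⟨u', k5, k6⟩ := k1 (fun g => (ℓ g u).toNat) (hH.ge ⟨u, fun g => by simp [k4]⟩)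
  rw [sub_eq_zero.1 (hℓ (u' - u) fun g => by simp [k5, k4]), ← e] at k6
  have k7 : ∀ x ∈ AddSubmonoid.closure V, (∀ g ∈ E, ℓ g x = 0) →
      x ∈ AddSubmonoid.closure {v ∈ V | ∀ g ∈ E, ℓ g v = 0} := fun x hx => by
    induction hx using AddSubmonoid.closure_induction with
    | mem x hx => exact fun k => AddSubmonoid.subset_closure ⟨hx, k⟩
    | zero => exact fun _ => zero_mem _
    | add x y hx hy k k' =>
      intro k0
      have := fun g hg => (add_eq_zero_iff_of_nonneg ((hV x).2 ⟨1, one_pos, by simpa⟩ g)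
        ((hV y).2 ⟨1, one_pos, by simpa⟩ g)).1 ((map_add _ _ _).symm.trans (k0 g hg))
      exact add_mem (k fun g hg => (this g hg).1) (k' fun g hg => (this g hg).2)
  exact ⟨i, j, hij, k7 _ k6 fun g hg => by rw [map_sub, h2 _ g hg, h2 _ g hg, sub_self]⟩

end Pool.Agent.MP_5d9b3c_ag.H48G
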