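import Pool.Agent.MP_5d9b3c_ag.H48G.Mon
import Pool.Agent.MP_5d9b3c_ag.H48G.Pts

/-! The poles of the series of an ideal come from the rays of a toroidal model. -/

namespace Pool.Agent.MP_5d9b3c_ag.H48G

open Set Filter Topology Metric MeasureTheory AlgebraicGeometry CategoryTheory MvPolynomial H72

variable {p : ℕ} [hp : Fact p.Prime] {F : Type} [Field F] [Algebra F ℚ_[p]] {N : ℕ}
  {Y : Scheme.{0}} {π : Y ⟶ Aff F N} {κ : Type} [Fintype κ] {f : κ → MvPolynomial (Fin N) F}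
  {T : ℂ}

variable (f) in
/-- The series of a set of points. -/
noncomputable def tt (C : Set (CP ℚ_[p] π)) (n : ℤ) : ℂ :=
  (mN p N (CP.an '' C ∩ {x | ‖fun j => aeval x (f j)‖ ≤ rr p ^ n})).toReal

theorem null_ae {P : MvPolynomial (Fin N) F} (hP : P ≠ 0) : ∀ᵐ x ∂mN p N, aeval x P ≠ 0 := by
  simpa only [MvPolynomial.eval_map, ← aeval_def, ae_iff, not_not] using null_poly
    (MvPolynomial.map (algebraMap F ℚ_[p]) P)
    ((map_ne_zero_iff _ (map_injective _ (RingHom.injective _))).2 hP)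

theorem tt_empty : Reg T (tt f (∅ : Set (CP ℚ_[p] π))) := .of_zero 0 fun n _ => by simp [tt]

theorem tt_union [IsIso (π ∣_ off (Ideal.span (range f)))] (hf : f ≠ 0) (A B : Set (CP ℚ_[p] π))
    (a : IsCompact A) (b : IsCompact B) (d : Disjoint A B) (hA : Reg T (tt f A))
    (hB : Reg T (tt f B)) : Reg T (tt f (A ∪ B)) := by
  obtain ⟨j, hj⟩ := Function.ne_iff.1 hf
  refine (hA.add hB).congr fun n => ?_
  rw [tt, image_union, union_inter_distrib_right, measure_union₀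
    ((b.image CP.cont_an).measurableSet.inter (isClosed_le (continuous_pi fun j =>
      cont_aeval _).norm continuous_const).measurableSet).nullMeasurableSet, ENNReal.toReal_add
    (ne_top_of_le_ne_top (a.image CP.cont_an).measure_ne_top (measure_mono inter_subset_left))
    (ne_top_of_le_ne_top (b.image CP.cont_an).measure_ne_top (measure_mono inter_subset_left)),
    Complex.ofReal_add]
  · rfl
  refine measure_mono_null ?_ (null_ae hj)
  rintro _ ⟨⟨⟨l, h1, rfl⟩, -⟩, ⟨l', h2, e⟩, -⟩ h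
  exact disjoint_left.1 d h1 (CP.inj (Ideal.subset_span (mem_range_self j)) h e.symm ▸ h2)

theorem norm_pi {v : κ → ℚ_[p]} (h : v ≠ 0) : ∃ a : ℤ, ‖v‖ = rr p ^ a := by
  obtain ⟨i, hi⟩ := Function.ne_iff.1 h
  have : Nonempty κ := ⟨i⟩
  obtain ⟨j, hj⟩ := Finite.exists_max fun j => ‖v j‖
  exact ⟨_, ((pi_norm_le_iff_of_nonneg (norm_nonneg _)).2 hj).antisymm (norm_le_pi_norm v j)
    |>.trans (norm_rz (norm_pos_iff.1 ((norm_pos_iff.2 hi).trans_le (hj i))))⟩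

theorem loc_reg [IsProper π] [IsIso (π ∣_ off (Ideal.span (range f)))] (hf : f ≠ 0) {R : Set ℚ}
    (hR : ∀ q ∈ R, (q : ℝ) ≠ Real.log ‖T‖ / Real.log p) (y : CP ℚ_[p] π)
    (hy : Chart (Ideal.span (range f)) π R (y.1 (IsLocalRing.closedPoint _))) :
    ∃ O, IsCompact O ∧ IsOpen O ∧ y ∈ O ∧
      ∀ C ⊆ O, IsCompact C → IsOpen C → Reg T (tt f C) := by
  classical
  obtain ⟨U, S, φ', m, k, hx, hU, hfg, hsp, het, hφ, hI, ⟨D, hD, hJ⟩, V, hV, hVR⟩ := hy
  replace hx := in_iff.2 hx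
  have := CP.t2 (K := ℚ_[p]) (π := π)
  let := ((pb π U).comp C).toAlgebra
  let φ : AddMonoidAlgebra F S →ₐ[F] Γ(Y, U) := ⟨φ', DFunLike.congr_fun hφ⟩
  let χ : S → Γ(Y, U) := fun n => φ (.single n 1)
  have χa : ∀ a b, χ (a + b) = χ a * χ b := fun a b => by simp [χ, ← map_mul]
  have χ0 : χ 0 = 1 := map_one φ
  have χr : ∀ n a b, χ n * a = χ n * b → a = b := fun n a b =>
    (mul_cancel_left_mem_nonZeroDivisors (reg_ch (φ := φ) het n)).1
  obtain ⟨G, hG, hfin⟩ := AddMonoid.fg_iff.1 ((AddMonoid.fg_iff_addSubmonoid_fg S).2 hfg)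
  have := hfin.fintype
  have ind : ∀ P : S → Prop, P 0 → (∀ a b, P a → P b → P (a + b)) → (∀ g : G, P g) → ∀ n, P n :=
    fun P h0 h1 h2 n => AddSubmonoid.dense_induction _ hG (fun g hg => h2 ⟨g, hg⟩) h0 h1 n
  let hom : CP ℚ_[p] π → Γ(Y, U) →ₐ[F] ℚ_[p] := fun l =>
    if hl : In l.1 U then ⟨pl l.1 hl, fun c => (vl_eq hl _).symm.trans
      ((CP.vl_eval hl _).trans (aeval_C _ c))⟩ else ⟨pl y.1 hx, fun c => (vl_eq hx _).symm.trans
      ((CP.vl_eval hx _).trans (aeval_C _ c))⟩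
  have hom1 : ∀ l, In l.1 U → ∀ a, hom l a = vl l.1 a := fun l hl a => by
    simp only [hom, dif_pos hl, vl_eq hl]
    rfl
  have homc : ∀ l, In l.1 U → (∀ᶠ l' in 𝓝 l, In l'.1 U) ∧
      ∀ a, Tendsto (hom · a) (𝓝 l) (𝓝 (hom l a)) := fun l hl => by
    obtain ⟨k1, k2⟩ := tendsto_cp.1 (tendsto_id (x := 𝓝 l)) U hl
    exact ⟨k1, fun a => (hom1 l hl a ▸ k2 a).congr' (k1.mono fun l' h => (hom1 l' h a).symm)⟩
  have homp : ∀ l, In l.1 U → ∀ q, hom l (pb π U q) = aeval l.an q := fun l hl q =>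
    (hom1 l hl _).trans (CP.vl_eval hl q)
  let uu : CP ℚ_[p] π → G → ℚ_[p] := fun l g => hom l (χ g)
  obtain ⟨Λ, L1, L2⟩ := chart_at (φ := φ) (u := fun g : G => .single g.1 1)
    (AddMonoidAlgebra.mvPolynomial_aeval_of_surjective_of_closure hG) het (hom y)
  change ∀ᶠ τ in 𝓝 (uu y), _ at L1
  -- units
  choose uj huj using fun j => Ideal.mem_span_singleton.1
    (hI.le (Ideal.mem_map_of_mem _ (Ideal.subset_span ⟨j, rfl⟩)))
  obtain ⟨cj, hcj⟩ := Ideal.mem_span_range_iff_exists_fun.1 (show χ m ∈ Ideal.span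
    (range fun j => pb π U (f j)) by
      rw [show (fun j => pb π U (f j)) = pb π U ∘ f from rfl, range_comp, ← Ideal.map_span, hI]
      exact Ideal.mem_span_singleton_self _)
  have u1 : (fun j => hom y (uj j)) ≠ 0 := fun e => by
    have := congrArg (hom y) (χr m (∑ j, cj j * uj j) 1 (by
      rw [mul_one, Finset.mul_sum]
      exact (Finset.sum_congr rfl fun j _ => by rw [huj, mul_left_comm]; rfl).trans hcj))
    simp [show ∀ j, hom y (uj j) = 0 from congrFun e] at this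
  obtain ⟨a, ha⟩ := norm_pi u1
  obtain ⟨uJ, huJ⟩ := Ideal.mem_span_singleton.1 (hJ.le (Ideal.mem_span_singleton_self _))
  have u2 : hom y uJ ≠ 0 := fun e => by
    obtain ⟨w, hw⟩ := Ideal.mem_span_singleton.1 (hJ.ge (Ideal.mem_span_singleton_self _))
    have := congrArg (hom y) (χr k 1 (uJ * w) (by rw [mul_one, ← mul_assoc]; exact huJ ▸ hw))
    simp [e] at this
  -- the generic open set
  obtain ⟨P, hP, hP'⟩ : ∃ P : MvPolynomial (Fin N) F, P ≠ 0 ∧ ∀ l : CP ℚ_[p] π,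
      aeval l.an P ≠ 0 → In l.1 (Y.basicOpen (χ (∑ g : G, g.1))) := by
    obtain ⟨J, hJ, h1⟩ : ∃ J : Ideal Γ(Y, U), J.IsPrime ∧ χ (∑ g : G, g.1) * χ m ∉ J := by
      by_contra! h
      have := (hom y).domain_nontrivial
      exact nonZeroDivisors.ne_zero (pow_mem (reg_ch (φ := φ) het (∑ g : G, g.1 + m)) _)
        (χa _ _ ▸ nilpotent_iff_mem_prime.2 h : IsNilpotent (χ _)).choose_spec
    have h2 : ∀ s, s ∉ J → hU.fromSpec ⟨J, hJ⟩ ∈ Y.basicOpen s := fun s hs =>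
      (hU.fromSpec_preimage_basicOpen s).ge hs
    refine CP.gen_in (I := Ideal.span (range f)) (h2 _ fun h => h1 (J.mul_mem_right _ h)) fun h => ?_
    refine h1 (J.mul_mem_left _ (hcj ▸ sum_mem fun j _ => J.mul_mem_left _ (by_contra fun h3 => ?_)))
    have h4 := ((Scheme.basicOpen_appLE π U ⊤ le_top _).le (h2 _ h3)).2
    exact (basicOpen_eq_of_affine (R := .of _) (f j)).le h4
      ((PrimeSpectrum.mem_zeroLocus _ _).1 h (Ideal.subset_span ⟨j, rfl⟩))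
  -- a compact neighbourhood
  obtain ⟨K, K1, K2, K3⟩ := exists_mem_nhds_isCompact_mapsTo_of_isCompact_mem_nhds continuous_id
    (show {l : CP ℚ_[p] π | In l.1 U ∧ (∀ s, hom l s = Λ s (uu l)) ∧
      ‖fun j => hom l (uj j)‖ = rr p ^ a ∧ ‖hom l uJ‖ = ‖hom y uJ‖} ∈ 𝓝 y by
      filter_upwards [(homc y hx).1, L2 _ hom (homc y hx).2,
        (tendsto_pi_nhds.2 fun j => (homc y hx).2 (uj j)).eventually
          (ball_mem_nhds _ (norm_pos_iff.2 u1)),
        ((homc y hx).2 uJ).eventually (ball_mem_nhds _ (norm_pos_iff.2 u2))] with l k1 k2 k3 k4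
      exact ⟨k1, k2, ha ▸ norm_eq_of_lt (mem_ball_iff_norm.1 k3),
        norm_eq_of_lt (mem_ball_iff_norm.1 k4)⟩)
    (CP.proper.isCompact_preimage (isCompact_closedBall y.an 1))
    (CP.cont_an.continuousAt.preimage_mem_nhds (closedBall_mem_nhds _ one_pos))
  replace K3 : ∀ {l}, l ∈ K → In l.1 U ∧ (∀ s, hom l s = Λ s (uu l)) ∧
    ‖fun j => hom l (uj j)‖ = rr p ^ a ∧ ‖hom l uJ‖ = ‖hom y uJ‖ := fun h => K3 h
  have uc : ContinuousOn uu K := fun l hl =>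
    (tendsto_pi_nhds.2 fun g => (homc l (K3 hl).1).2 _).mono_left nhdsWithin_le_nhds
  have ui : InjOn uu K := fun l hl l' hl' e => Subtype.ext (pt_ext hU (K3 hl).1 (K3 hl').1
    fun s => by rw [← hom1 l (K3 hl).1, ← hom1 l' (K3 hl').1, (K3 hl).2.1, (K3 hl').2.1, e])
  have sep : ∀ l ∈ K, ∀ C, IsOpen C → l ∈ C → ∀ᶠ τ in 𝓝 (uu l), ∀ l' ∈ K, uu l' = τ → l' ∈ C :=
    fun l hl C c1 c2 => by
      filter_upwards [((K2.diff c1).image_of_continuousOn
        (uc.mono sdiff_subset)).isClosed.isOpen_compl.mem_nhds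
        fun ⟨l', k1, k2⟩ => k1.2 (ui k1.1 hl k2 ▸ c2)] with τ k l' k1 k2
      exact by_contra fun k3 => k ⟨l', ⟨k1, k3⟩, k2⟩
  have sur : ∀ᶠ τ in 𝓝 (uu y), ∀ β : AddMonoidAlgebra F S →ₐ[F] ℚ_[p],
      (fun g : G => β (.single g.1 1)) = τ → ∃ l ∈ K, uu l = τ := by
    let Z := {τ | ∃ Ψ : Γ(Y, U) →ₐ[F] ℚ_[p], (fun g : G => Ψ (χ g)) = τ ∧ ∀ a, Ψ a = Λ a τ}
    choose Ψ z1 z2 using fun τ : Z => τ.2
    let ψ : Z → CP ℚ_[p] π := fun τ => .of hU (Ψ τ).toRingHom (Ψ τ).commutes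
    have i1 : ∀ τ, In (ψ τ).1 U := fun τ => in_mk _ _
    have i2 : ∀ τ s, vl (ψ τ).1 s = Ψ τ s := fun τ => vl_mk _ _
    have i3 : Tendsto ψ (comap (↑) (𝓝 (uu y))) (𝓝 y) :=
      tendsto_cp.2 (conv_of_affine hU hx (.of_forall i1) fun s => by
        simp only [i2, z2, ← hom1 y hx, (K3 (mem_of_mem_nhds K1)).2.1]
        exact (L1.self_of_nhds.1 s).continuousAt.tendsto.comp tendsto_comap)
    filter_upwards [L1, eventually_comap.1 (i3 K1)] with τ k1 k2 β hβ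
    obtain ⟨Ψ', k3, k4⟩ := k1.2 β hβ
    have k5 : τ ∈ Z := ⟨Ψ', by rw [← hβ, ← k3]; rfl, k4⟩
    exact ⟨_, k2 ⟨τ, k5⟩ rfl, (funext fun g => (hom1 _ (i1 _) _).trans (i2 _ _)).trans (z1 _)⟩
  obtain ⟨ε, e1, e2⟩ := nhds_basis_closedBall.mem_iff.1 ((L1.and sur).and
    (sep y (mem_of_mem_nhds K1) _ isOpen_interior (mem_interior_iff_mem_nhds.2 K1)))
  have box : ∀ c ρ, 0 < ρ → closedBall c ρ ⊆ closedBall (uu y) ε →
      IsCompact (K ∩ uu ⁻¹' closedBall c ρ) ∧ IsOpen (K ∩ uu ⁻¹' closedBall c ρ) :=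
    fun c ρ r1 r2 => ⟨K2.of_isClosed_subset (uc.preimage_isClosed_of_isClosed K2.isClosed
      isClosed_closedBall) inter_subset_left, by
        rw [show K ∩ uu ⁻¹' closedBall c ρ = interior K ∩ uu ⁻¹' closedBall c ρ from
          Set.ext fun l => and_congr_left fun h =>
            ⟨fun h' => (e2 (r2 h)).2 l h' rfl, fun h' => interior_subset h'⟩]
        exact (uc.mono interior_subset).isOpen_inter_preimage isOpen_interior
          (IsUltrametricDist.isOpen_closedBall _ r1.ne')⟩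
  refine ⟨_, (box _ ε e1 le_rfl).1, (box _ ε e1 le_rfl).2,
    ⟨mem_of_mem_nhds K1, mem_closedBall_self e1.le⟩, fun C c0 c1 c2 => lam tt_empty (tt_union hf)
      (S := {B | ∃ c, ∃ e : ℕ, closedBall c (rr p ^ e) ⊆ closedBall (uu y) ε ∧
        B = K ∩ uu ⁻¹' closedBall c (rr p ^ e)}) ?_ ?_ c1 fun l hl => ?_⟩
  rotate_left
  · rintro _ ⟨c, e, -, rfl⟩ _ ⟨c', e', -, rfl⟩
    exact (IsUltrametricDist.closedBall_subset_trichotomy c c' _ _).imp
      (fun h => inter_subset_inter_right _ (preimage_mono h)) (.imp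
      (fun h => inter_subset_inter_right _ (preimage_mono h))
      fun h => (h.preimage uu).mono inter_subset_right inter_subset_right)
  · obtain ⟨δ, d1, d2⟩ := nhds_basis_closedBall.mem_iff.1 (inter_mem (sep l (c0 hl).1 C c2 hl)
      ((IsUltrametricDist.isOpen_closedBall _ e1.ne').mem_nhds (c0 hl).2))
    obtain ⟨e, he⟩ := ev_small (p := p) d1
    have d3 := (closedBall_subset_closedBall (he e le_rfl).le).trans d2
    exact ⟨_, ⟨uu l, e, fun τ h => (d3 h).2, rfl⟩,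
      ⟨(c0 hl).1, mem_closedBall_self (rr_pow_pos e).le⟩, fun l' h => (d3 h.2).1 l' h.1 rfl⟩
  rintro _ ⟨c, e, hc, rfl⟩
  refine ⟨(box c _ (rr_pow_pos e) hc).1, (box c _ (rr_pow_pos e) hc).2, ?_⟩
  -- the torus
  let τ : (Fin N → ℚ_[p]) → G → ℚ_[p] := fun t g => ch t g.1.1
  have aτ : ∀ t, (∀ l, t l ≠ 0) → AnalyticAt ℚ_[p] τ t := fun t ht =>
    analyticAt_pi_iff.2 fun g => an_ch ht _
  let W := {t | (∀ l, t l ≠ 0) ∧ τ t ∈ closedBall c (rr p ^ e)}
  have oW : ∀ t ∈ W, W ∈ 𝓝 t := fun t ht => inter_mem (eventually_all.2 fun l =>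
    (continuous_apply l).continuousAt.eventually_ne (ht.1 l)) ((aτ t ht.1).continuousAt
      ((IsUltrametricDist.isOpen_closedBall _ (rr_pow_pos e).ne').mem_nhds ht.2))
  have chn : ∀ l t, (∀ i, t i ≠ 0) → uu l = τ t → ∀ n, hom l (χ n) = ch t n.1 := fun l t ht h =>
    ind _ (by rw [χ0, map_one]; exact ch_zero.symm)
      (fun a b ha hb => by rw [χa, map_mul, ha, hb, ← ch_add ht]; rfl) (congrFun h)
  have : Nonempty (CP ℚ_[p] π) := ⟨y⟩
  choose! L l1 l2 using fun t (ht : t ∈ W) => (e2 (hc ht.2)).1.2 (AddMonoidAlgebra.lift F _ S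
    ⟨⟨fun n => ch t n.toAdd.1, ch_zero⟩, fun a b => ch_add ht.1 _ _⟩) (by ext; simp [τ])
  have l3 : ∀ t ∈ W, ‖fun j => aeval (L t).an (f j)‖ = rr p ^ a * ‖ch t m.1‖ := fun t ht => by
    rw [← (K3 (l1 t ht)).2.2.1, ← chn _ t ht.1 (l2 t ht), mul_comm, ← norm_smul]
    exact congrArg _ (funext fun j => by
      rw [← homp _ (K3 (l1 t ht)).1, huj, map_mul]; rfl)
  have p0 : ∀ w : Fin N → ℤ, (∀ g : G, 0 ≤ w ⬝ᵥ g.1.1) ↔ ∀ s ∈ S, 0 ≤ w ⬝ᵥ s := fun w =>
    ⟨fun h s hs => ind (0 ≤ w ⬝ᵥ ·.1) (by simp) (fun a b ha hb => by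
      simpa using add_nonneg ha hb) h ⟨s, hs⟩, fun h g => h _ g.1.2⟩
  refine (torus (fun g : G => g.1.1) (fun w h => ?_) (fun w => (p0 w).trans (hV w)) (κ := k.1)
    (fun v hv => ?_) c e (W := W) (fun t => ?_) (Θ := fun t => (L t).an) (fun t ht t' ht' h => ?_)
    ?_ (norm_pos_iff.2 u2) (fun t ht => ?_) (Φ := fun x => ‖fun j => aeval x (f j)‖) l3).congr
    fun n => ?_
  · have k1 : ∀ n ∈ AddSubgroup.closure (S : Set (Fin N → ℤ)), w ⬝ᵥ n = 0 := fun n hn =>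
      (AddSubgroup.closure_le (AddMonoidHom.mk' (w ⬝ᵥ ·) (dotProduct_add w)).ker).2
        (fun s hs => ind (w ⬝ᵥ ·.1 = 0) (by simp) (fun a b ha hb => by simp [ha, hb]) h ⟨s, hs⟩) hn
    exact dotProduct_self_eq_zero.1 (k1 w (hsp ▸ trivial))
  · have k1 := (hV v).2 ⟨1, one_pos, by simpa using AddSubmonoid.subset_closure hv⟩ _ m.2
    refine ⟨k1, fun h => ?_⟩
    obtain ⟨k2, k3⟩ := hVR v hv
    have k4 := congrArg (Real.log ‖·‖) h
    have k5 := Real.log_pos (one_lt_p (p := p))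
    have k6 : T ^ (v ⬝ᵥ m.1).toNat ≠ 0 := right_ne_zero_of_mul (h.trans_ne one_ne_zero)
    simp only [norm_mul, norm_zpow, Complex.norm_real, Real.norm_of_nonneg (rr_pos (p := p)).le,
      norm_one, Real.log_one] at k4
    rw [Real.log_mul (rz_pos _).ne' (norm_ne_zero_iff.2 k6), norm_pow, Real.log_pow, Real.log_zpow,
      rr, Real.log_inv, ← Int.cast_natCast (v ⬝ᵥ m.1).toNat, Int.toNat_of_nonneg k1] at k4
    have k7 : (0 : ℝ) < (v ⬝ᵥ k.1 : ℤ) := by exact_mod_cast k2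
    have k8 : v ⬝ᵥ m.1 ≠ 0 := fun e => by
      rw [e, Int.cast_zero, zero_mul] at k4
      nlinarith
    refine hR _ (k3 k8) ?_
    have k9 : ((v ⬝ᵥ m.1 : ℤ) : ℝ) ≠ 0 := by exact_mod_cast k8
    rw [Rat.cast_div, Rat.cast_intCast, Rat.cast_intCast, div_eq_div_iff k9 k5.ne']
    linarith
  · simp only [W, τ, mem_ofPred, mem_closedBall_iff_norm, zpow_natCast,
      pi_norm_le_iff_of_nonneg (rr_pow_pos e).le, Pi.sub_apply]
  · obtain ⟨j, hj⟩ := Function.ne_iff.1 (norm_ne_zero_iff.1 ((l3 t ht).trans_ne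
      (mul_ne_zero (rz_pos _).ne' (norm_ne_zero_iff.2 (ch_ne ht.1 _)))))
    have k1 := CP.inj (Ideal.subset_span (mem_range_self j)) hj h
    exact ch_inj hsp (fun n hn => (chn _ t ht.1 (l2 t ht) ⟨n, hn⟩).symm.trans
      (k1 ▸ chn _ t' ht'.1 (l2 t' ht') ⟨n, hn⟩)) ht.1 ht'.1
  · exact ne_top_of_le_ne_top (K2.image CP.cont_an).measure_ne_top
      (measure_mono fun _ ⟨t, ht, e⟩ => ⟨_, l1 t ht, e⟩)
  · obtain ⟨B, b1, b2⟩ := jac (φ := φ) het hD (Ψ := fun t => hom (L t)) ht.1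
      (fun s => (((e2 (hc ht.2)).1.1.1 s).comp (aτ t ht.1)).congr (mem_of_superset (oW t ht)
        fun t' h => ((K3 (l1 t' h)).2.1 s).trans (congrArg _ (l2 t' h)) |>.symm))
      (mem_of_superset (oW t ht) fun t' h => chn _ t' h.1 (l2 t' h)) fun i => pb π U (X i)
    refine ⟨B, b1.congr_of_eventuallyEq (mem_of_superset (oW t ht) fun t' h => funext fun i =>
      (homp _ (K3 (l1 t' h)).1 _).trans (aeval_X _ _)), ?_⟩
    rw [← norm_prod, ← norm_mul, b2, huJ, map_mul, norm_mul, mul_comm, (K3 (l1 t ht)).2.2.2,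
      ← chn _ t ht.1 (l2 t ht)]
    rfl
  · refine congrArg (fun x : ENNReal => (x.toReal : ℂ)) (measure_congr (.inter ?_ .rfl))
    filter_upwards [null_ae (p := p) hP] with x hx
    refine propext ⟨?_, ?_⟩
    · rintro ⟨l, ⟨k1, k2⟩, rfl⟩
      have k3 := ((in_basic (K3 k1).1 _).1 (hP' l hx)).ne_zero
      rw [← hom1 l (K3 k1).1] at k3
      obtain ⟨t, t1, t2⟩ := ex_pt hsp (fun n => hom l (χ n)) (fun a b => by rw [χa, map_mul])
        (ind _ (by simp [χ0]) (fun a b ha hb => by rw [χa, map_mul]; exact mul_ne_zero ha hb)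
          fun g => by
            rw [← Finset.add_sum_erase _ _ (Finset.mem_univ g), χa, map_mul] at k3
            exact left_ne_zero_of_mul k3)
      have t3 : uu l = τ t := funext fun g => t2 g
      have t4 : t ∈ W := ⟨t1, t3 ▸ k2⟩
      exact ⟨t, t4, congrArg _ (ui (l1 t t4) k1 ((l2 t t4).trans t3.symm))⟩
    · rintro ⟨t, ht, rfl⟩
      exact ⟨_, ⟨l1 t ht, mem_preimage.2 ((l2 t ht).symm ▸ ht.2)⟩, rfl⟩

/-- The series of an ideal with a toroidal model has no pole away from the rays. -/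
theorem igusa (g : κ → MvPolynomial (Fin N) ℤ) (hg : g ≠ 0) {R : Set ℚ}
    (h : Toroidal p (Ideal.span (range fun j => map (Int.castRingHom F) (g j))) π R)
    (hR : ∀ q ∈ R, (q : ℝ) ≠ Real.log ‖T‖ / Real.log p) :
    Reg T fun n => Nat.card {x : Fin N → ZMod (p ^ n.toNat) // ∀ j, aeval x (g j) = 0} *
      (((p : ℂ) ^ N)⁻¹) ^ n.toNat := by
  obtain ⟨h1, h2, h3⟩ := h
  have := CP.t2 (K := ℚ_[p]) (π := π)
  have : CharZero F := (algebraMap F ℚ_[p]).charZero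
  obtain ⟨j, hj⟩ := Function.ne_iff.1 hg
  replace hj := (map_ne_zero_iff _ (map_injective (Int.castRingHom F) Int.cast_injective)).2 hj
  have hf : (fun j => map (Int.castRingHom F) (g j)) ≠ 0 := Function.ne_iff.2 ⟨j, hj⟩
  refine (glue tt_empty (tt_union hf) (CP.proper.isCompact_preimage (isCompact_closedBall 0 1))
    ((IsUltrametricDist.isOpen_closedBall _ one_ne_zero).preimage CP.cont_an) fun y hy =>
      loc_reg hf hR y (h3 (fun i => ⟨y.an i, (norm_le_pi_norm _ i).trans (by simpa using hy)⟩) y.1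
        y.comp _)).congr fun n => ?_
  have e : ∀ (x : Fin N → ℚ_[p]) j, aeval x (map (Int.castRingHom F) (g j)) = aeval x (g j) :=
    fun x j => aeval_map_algebraMap F x (g j)
  rw [tt, measure_congr (t := {x ∈ closedBall 0 1 | ∀ j, ‖aeval x (g j)‖ ≤ rr p ^ n}), count]
  · simp [rr, ← pow_mul, mul_comm]
  filter_upwards [null_ae (p := p) hj] with x hx
  refine propext (and_congr ⟨fun ⟨l, k, e⟩ => e ▸ k, fun k => ?_⟩ ?_)
  · obtain ⟨l, rfl⟩ := CP.surj (π := π) (I := Ideal.span (range fun j =>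
      map (Int.castRingHom F) (g j))) (Ideal.subset_span ⟨j, rfl⟩) hx
    exact ⟨l, k, rfl⟩
  · simp only [e, zpow_natCast]
    exact pi_norm_le_iff_of_nonneg (rr_pow_pos n).le

end Pool.Agent.MP_5d9b3c_ag.H48G
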