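import Pool.Agent.MP_5d9b3c_ag.H72.Meas

/-! Haar measure on `ℚ_[p] ^ N`: change of variables, null sets and counting. -/

namespace Pool.Agent.MP_5d9b3c_ag.H48G

open Set Metric MeasureTheory MeasureTheory.Measure Matrix Topology H72
open scoped ENNReal

section Top

variable {X : Type} [TopologicalSpace X] [T2Space X] {Pr : Set X → Prop}

omit [T2Space X] in
/-- Finite unions of nested or disjoint sets. -/
theorem lam (h0 : Pr ∅) (hU : ∀ A B, IsCompact A → IsCompact B → Disjoint A B → Pr A → Pr B →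
    Pr (A ∪ B)) {S : Set (Set X)} (h1 : ∀ B ∈ S, IsCompact B ∧ IsOpen B ∧ Pr B)
    (h2 : ∀ A ∈ S, ∀ B ∈ S, A ⊆ B ∨ B ⊆ A ∨ Disjoint A B) {C : Set X} (hC : IsCompact C)
    (h3 : ∀ y ∈ C, ∃ B ∈ S, y ∈ B ∧ B ⊆ C) : Pr C := by
  classical
  have key : ∀ s : Finset (Set X), ↑s ⊆ S → Pr (⋃ B ∈ s, B) := fun s => by
    induction s using Finset.strongInduction with
    | H s ih =>
      intro hs
      rcases s.eq_empty_or_nonempty with rfl | hne
      · simpa using h0
      obtain ⟨B, hB⟩ := s.exists_maximal hne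
      have e : ⋃ A ∈ s, A = B ∪ ⋃ A ∈ s.filter fun A => ¬A ⊆ B, A := by
        refine (iUnion₂_subset fun A hA => ?_).antisymm (union_subset
          (subset_biUnion_of_mem (u := fun A => A) hB.1) (biUnion_subset_biUnion_left (Finset.filter_subset _ _)))
        by_cases k : A ⊆ B
        · exact k.trans subset_union_left
        · exact (subset_biUnion_of_mem (u := fun A => A) (Finset.mem_filter.2 ⟨hA, k⟩)).trans
            subset_union_right
      rw [e]
      refine hU _ _ (h1 B (hs hB.1)).1 (Finset.isCompact_biUnion _ fun A hA =>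
        (h1 A (hs (Finset.mem_filter.1 hA).1)).1) (disjoint_iUnion₂_right.2 fun A hA => ?_)
        (h1 B (hs hB.1)).2.2 (ih _ (Finset.filter_ssubset.2 ⟨B, hB.1, by simp⟩)
          ((Finset.coe_subset.2 (Finset.filter_subset _ _)).trans hs))
      obtain ⟨k1, k2⟩ := Finset.mem_filter.1 hA
      exact ((h2 B (hs hB.1) A (hs k1)).resolve_left fun k => k2 (hB.2 k1 k)).resolve_left k2
  choose! B b1 b2 b3 using h3
  obtain ⟨t, t1, t2⟩ := hC.elim_nhds_subcover B fun y hy => (h1 _ (b1 y hy)).2.1.mem_nhds (b2 y hy)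
  have := key (t.image B) (by
    rw [Finset.coe_image]
    rintro _ ⟨y, hy, rfl⟩
    exact b1 y (t1 y hy))
  rwa [Finset.set_biUnion_finset_image,
    (iUnion₂_subset fun y hy => b3 y (t1 y hy)).antisymm t2] at this

/-- An additive property of compact open sets is local. -/
theorem glue (h0 : Pr ∅) (hU : ∀ A B, IsCompact A → IsCompact B → Disjoint A B → Pr A → Pr B →
    Pr (A ∪ B)) {Ω : Set X} (h1 : IsCompact Ω) (h2 : IsOpen Ω)
    (h3 : ∀ y ∈ Ω, ∃ O, IsCompact O ∧ IsOpen O ∧ y ∈ O ∧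
      ∀ C ⊆ O, IsCompact C → IsOpen C → Pr C) : Pr Ω := by
  obtain ⟨O, -, -, k1, k2⟩ := h1.induction_on (p := fun S => ∃ O, IsCompact O ∧ IsOpen O ∧ S ⊆ O ∧
    ∀ C ⊆ O, IsCompact C → IsOpen C → Pr C)
    ⟨∅, isCompact_empty, isOpen_empty, le_rfl, fun C k _ _ => subset_empty_iff.1 k ▸ h0⟩
    (fun _ _ k ⟨O, k1, k2, k3, k4⟩ => ⟨O, k1, k2, k.trans k3, k4⟩)
    (fun _ _ ⟨O, k1, k2, k3, k4⟩ ⟨O', l1, l2, l3, l4⟩ => ⟨O ∪ O', k1.union l1, k2.union l2,
      union_subset_union k3 l3, fun C k c1 c2 => inter_union_sdiff C O ▸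
        hU _ _ (c1.inter k1) (c1.diff k2) disjoint_inf_sdiff
          (k4 _ inter_subset_right (c1.inter k1) (c2.inter k2))
          (l4 _ (fun x hx => (k hx.1).resolve_left hx.2) (c1.diff k2) (c2.sdiff k1.isClosed))⟩)
    fun y hy => (h3 y hy).elim fun O ⟨k1, k2, k3, k4⟩ =>
      ⟨O, mem_nhdsWithin_of_mem_nhds (k2.mem_nhds k3), O, k1, k2, le_rfl, k4⟩
  exact k2 Ω k1 h1 h2

end Top

variable {p : ℕ} [hp : Fact p.Prime] {N : ℕ}

variable (p N) in
/-- Haar measure. -/
noncomputable def mN : Measure (Fin N → ℚ_[p]) := Measure.pi fun _ => mu p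

instance : IsAddHaarMeasure (mN p N) := by unfold mN; infer_instance

theorem mu_pre {x : ℚ_[p]} (hx : x ≠ 0) {s : Set ℚ_[p]} (hs : MeasurableSet s) :
    ‖x‖ₑ * mu p ((x * ·) ⁻¹' s) = mu p s := by
  have := map_scale (inv_ne_zero hx)
  rw [inv_inv] at this
  rw [← Measure.map_apply (by fun_prop) hs, this, Measure.smul_apply, smul_eq_mul, ← mul_assoc,
    ← enorm_mul, mul_inv_cancel₀ hx, enorm_one, one_mul]

theorem map_lin {M : Matrix (Fin N) (Fin N) ℚ_[p]} (hM : M.det ≠ 0) :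
    ‖M.det‖ₑ • (mN p N).map (toLin' M) = mN p N := by
  have hm : ∀ M : Matrix (Fin N) (Fin N) ℚ_[p], Measurable (toLin' M) := fun M =>
    (toLin' M).continuous_of_finiteDimensional.measurable
  refine diagonal_transvection_induction_of_det_ne_zero
    (fun M => ‖M.det‖ₑ • (mN p N).map (toLin' M) = mN p N) M hM (fun D h => ?_) (fun t => ?_)
    fun A B _ _ hA hB => ?_
  · refine (Measure.pi_eq fun s hs => ?_).symm
    rw [det_diagonal] at h
    have : toLin' (diagonal D) ⁻¹' univ.pi s = univ.pi fun i => (D i * ·) ⁻¹' s i := by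
      ext f
      simp [mulVec_diagonal]
    rw [Measure.smul_apply, Measure.map_apply (hm _) (.univ_pi hs), this, mN, pi_pi, det_diagonal,
      smul_eq_mul, ← ofReal_norm, norm_prod, ENNReal.ofReal_prod_of_nonneg fun _ _ => norm_nonneg _,
      ← Finset.prod_mul_distrib]
    exact Finset.prod_congr rfl fun i _ => by
      rw [ofReal_norm, mu_pre (Finset.prod_ne_zero_iff.1 h i (Finset.mem_univ i)) (hs i)]
  · rw [t.det, enorm_one, one_smul]
    refine (pi_eq fun s hs => ?_).symm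
    have h2s : MeasurableSet (univ.pi s) := .univ_pi hs
    simp_rw [← pi_pi, ← lintegral_indicator_one h2s]
    rw [lintegral_map (measurable_one.indicator h2s) (hm _), mN]
    refine lintegral_eq_of_lmarginal_eq {t.i} ((measurable_one.indicator h2s).comp (hm _))
      (measurable_one.indicator h2s) ?_
    simp_rw [lmarginal_singleton]
    ext x
    cases t with | mk i j hij c =>
    simp [transvection, single_mulVec, hij.symm, ← Function.update_add,
      lintegral_add_right_eq_self fun y ↦ indicator (univ.pi s) 1 (Function.update x i y)]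
  · rw [toLin'_mul, det_mul, LinearMap.coe_comp, ← Measure.map_map (hm _) (hm _), enorm_mul,
      mul_smul, ← Measure.map_smul, hB, hA]

theorem img_lin (A : (Fin N → ℚ_[p]) ≃L[ℚ_[p]] Fin N → ℚ_[p]) {S : Set (Fin N → ℚ_[p])}
    (hS : MeasurableSet (A '' S)) :
    mN p N (A '' S) = ‖A.toContinuousLinearMap.det‖ₑ * mN p N S := by
  have h1 : (LinearMap.toMatrix' A.toContinuousLinearMap.toLinearMap).det ≠ 0 := by
    rw [LinearMap.det_toMatrix']
    exact A.toLinearEquiv.isUnit_det'.ne_zero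
  conv_lhs => rw [← map_lin h1]
  rw [Measure.smul_apply, toLin'_toMatrix', LinearMap.det_toMatrix',
    Measure.map_apply (by exact A.continuous.measurable) hS]
  exact congrArg (_ * mN p N ·) (A.injective.preimage_image S)

/-- Change of variables. -/
theorem cv {Θ : (Fin N → ℚ_[p]) → Fin N → ℚ_[p]} {T : Set (Fin N → ℚ_[p])} (h1 : IsCompact T)
    (h2 : IsOpen T) (h3 : InjOn Θ T) {δ : ℝ≥0∞} (h4 : δ ≠ 0)
    (h5 : ∀ t ∈ T, ∃ A, HasStrictFDerivAt (𝕜 := ℚ_[p]) Θ A t ∧ ‖A.det‖ₑ = δ) :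
    mN p N (Θ '' T) = δ * mN p N T := by
  have hc : ContinuousOn Θ T := fun t ht =>
    (h5 t ht).elim fun _ h => h.1.continuousAt.continuousWithinAt
  refine lam (Pr := fun C => C ⊆ T → mN p N (Θ '' C) = δ * mN p N C) (by simp)
    (fun A B a b d hA hB k => ?_) (S := {B | (∃ t ρ, 0 < ρ ∧ B = closedBall t ρ) ∧
      mN p N (Θ '' B) = δ * mN p N B}) ?_ ?_ h1 (fun t ht => ?_) le_rfl
  · obtain ⟨k1, k2⟩ := union_subset_iff.1 k
    rw [image_union, measure_union (disjoint_image_image fun x hx y hy e =>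
      disjoint_left.1 d hx (h3 (k1 hx) (k2 hy) e ▸ hy)) (b.image_of_continuousOn (hc.mono k2)).measurableSet,
      measure_union d b.measurableSet, hA k1, hB k2, mul_add]
  · rintro _ ⟨⟨t, ρ, k, rfl⟩, k'⟩
    exact ⟨isCompact_closedBall _ _, IsUltrametricDist.isOpen_closedBall _ k.ne', fun _ => k'⟩
  · rintro _ ⟨⟨t, ρ, -, rfl⟩, -⟩ _ ⟨⟨t', ρ', -, rfl⟩, -⟩
    exact IsUltrametricDist.closedBall_subset_trichotomy _ _ _ _
  obtain ⟨A', hA, rfl⟩ := h5 t ht
  let A := A'.toContinuousLinearEquivOfDetNeZero (by simpa using h4)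
  have eA : A.toContinuousLinearMap = A' := A'.coe_toContinuousLinearEquivOfDetNeZero _
  have hg : HasStrictFDerivAt (A.symm ∘ Θ) (.id ℚ_[p] _) t := by
    simpa [← eA] using A.symm.hasStrictFDerivAt.comp t hA
  obtain ⟨s, s1, s2⟩ := hg.approximates_deriv_on_nhds (c := 1 / 2) (.inr (by simp))
  obtain ⟨ε, e1, e2⟩ := nhds_basis_closedBall.mem_iff.1 (Filter.inter_mem s1 (h2.mem_nhds ht))
  have e3 : closedBall t (ε / 2) ⊆ closedBall t ε := closedBall_subset_closedBall (by linarith)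
  have k1 : ∀ a ∈ closedBall t ε, dist (A.symm (Θ a)) (A.symm (Θ t)) = dist a t := fun a ha => by
    by_cases k : a = t
    · simp [k]
    have := s2 a (e2 ha).1 t (e2 (mem_closedBall_self e1.le)).1
    have k2 := norm_pos_iff.2 (sub_ne_zero.2 k)
    rw [dist_eq_norm, dist_eq_norm]
    exact norm_eq_of_lt (this.trans_lt (by push_cast; linarith))
  have k2 : Θ '' closedBall t (ε / 2) = A '' closedBall (A.symm (Θ t)) (ε / 2) := by
    refine Set.ext fun x => ⟨?_, ?_⟩
    · rintro ⟨a, ha, rfl⟩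
      exact ⟨A.symm (Θ a), (k1 a (e3 ha)).trans_le ha, by simp⟩
    · rintro ⟨x, hx, rfl⟩
      obtain ⟨a, ha, rfl⟩ := s2.surjOn_closedBall_of_nonlinearRightInverse
        ⟨id, 1, by simp, fun _ => rfl⟩ e1.le (fun a ha => (e2 ha).1) (a := x) (by
          refine closedBall_subset_closedBall (le_of_eq ?_) hx
          norm_num
          ring)
      exact ⟨a, (k1 a ha).symm.trans_le hx, by simp⟩
  refine ⟨_, ⟨⟨t, ε / 2, half_pos e1, rfl⟩, ?_⟩, mem_closedBall_self (half_pos e1).le,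
    fun a ha => (e2 (e3 ha)).2⟩
  rw [k2, img_lin A ((isCompact_closedBall _ _).image A.continuous).measurableSet, eA,
    addHaar_closedBall_center, addHaar_closedBall_center _ t]

theorem null_poly (P : MvPolynomial (Fin N) ℚ_[p]) (hP : P ≠ 0) :
    mN p N {x | MvPolynomial.eval x P = 0} = 0 := by
  induction N with
  | zero =>
    obtain ⟨c, rfl⟩ := MvPolynomial.C_surjective _ P
    simp [MvPolynomial.C_ne_zero.1 hP]
  | succ N ih =>
    have h1 := ih _ (Polynomial.leadingCoeff_ne_zero.2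
      ((MvPolynomial.finSuccEquiv _ N).map_ne_zero_iff.2 hP))
    have h2 : MeasurableSet {x : Fin (N + 1) → ℚ_[p] | MvPolynomial.eval x P = 0} :=
      (isClosed_eq P.continuous_eval continuous_const).measurableSet
    have h3 := (measurePreserving_piFinSuccAbove (fun _ : Fin (N + 1) => mu p) 0).symm
    rw [mN, ← h3.measure_preimage h2.nullMeasurableSet, prod_apply_symm (h3.measurable h2)]
    refine (lintegral_congr_ae (g := 0) ?_).trans lintegral_zero_fun
    filter_upwards [compl_mem_ae_iff.2 h1] with s hs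
    refine ((Polynomial.finite_setOfPred_isRoot (p := (MvPolynomial.finSuccEquiv _ N P).map
      (MvPolynomial.eval s)) fun e => hs ?_).subset fun y hy => ?_).measure_zero _
    · simpa using congrArg (·.coeff (MvPolynomial.finSuccEquiv _ N P).natDegree) e
    · exact (MvPolynomial.eval_eq_eval_mv_eval' s y P).symm.trans (by
        simpa [MeasurableEquiv.piFinSuccAbove, Fin.consEquiv] using hy)

theorem mN_ball (c : Fin N → ℚ_[p]) (n : ℕ) :
    mN p N (closedBall c (rr p ^ n)) = ENNReal.ofReal (rr p ^ n) ^ N := by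
  rw [closedBall_pi _ (rr_pow_pos n).le, mN, pi_pi]
  exact (Finset.prod_congr rfl fun i _ => mu_Dk (c i) n).trans (by simp)

theorem count {κ : Type} (f : κ → MvPolynomial (Fin N) ℤ) (n : ℕ) :
    mN p N {x ∈ closedBall 0 1 | ∀ j, ‖MvPolynomial.aeval x (f j)‖ ≤ rr p ^ n} =
      Nat.card {x : Fin N → ZMod (p ^ n) // ∀ j, MvPolynomial.aeval x (f j) = 0} *
        ENNReal.ofReal (rr p ^ n) ^ N := by
  classical
  have : NeZero (p ^ n) := ⟨pow_ne_zero _ hp.out.ne_zero⟩
  have k0 : ∀ z : ℤ_[p], ‖(z : ℚ_[p])‖ ≤ rr p ^ n ↔ PadicInt.toZModPow n z = 0 := fun z => by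
    rw [rr_pow_eq, ← PadicInt.norm_def, PadicInt.norm_le_pow_iff_mem_span_pow,
      ← PadicInt.ker_toZModPow, RingHom.mem_ker]
  let B : (Fin N → ZMod (p ^ n)) → Set (Fin N → ℚ_[p]) := fun c =>
    closedBall (fun i => (c i).val) (rr p ^ n)
  have k1 : ∀ (z : Fin N → ℤ_[p]) c, (fun i => (z i : ℚ_[p])) ∈ B c ↔
      (fun i => PadicInt.toZModPow n (z i)) = c := fun z c => by
    rw [mem_closedBall, dist_pi_le_iff (rr_pow_pos n).le, funext_iff]
    refine forall_congr' fun i => ?_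
    have := k0 (z i - (c i).val)
    rw [map_sub, map_natCast, ZMod.natCast_zmod_val, sub_eq_zero] at this
    rw [dist_eq_norm, ← this]
    push_cast
    rfl
  have k2 : ∀ (z : Fin N → ℤ_[p]) j, ‖MvPolynomial.aeval (fun i => (z i : ℚ_[p])) (f j)‖ ≤
      rr p ^ n ↔ MvPolynomial.aeval (fun i => PadicInt.toZModPow n (z i)) (f j) = 0 :=
    fun z j => by
      rw [← show _ = MvPolynomial.aeval (fun i => (z i : ℚ_[p])) (f j) from
        MvPolynomial.comp_aeval_apply z PadicInt.Coe.ringHom.toIntAlgHom _, ← show _ =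
          MvPolynomial.aeval (fun i => PadicInt.toZModPow n (z i)) (f j) from
        MvPolynomial.comp_aeval_apply z (PadicInt.toZModPow n).toIntAlgHom _]
      exact k0 _
  have k3 : ∀ x ∈ closedBall (0 : Fin N → ℚ_[p]) 1, ∃ z : Fin N → ℤ_[p],
      x = fun i => (z i : ℚ_[p]) := fun x hx =>
    ⟨fun i => ⟨x i, (norm_le_pi_norm x i).trans (by simpa using hx)⟩, rfl⟩
  have k4 : ∀ c, B c ⊆ closedBall 0 1 := fun c x hx => by
    rw [mem_closedBall, dist_pi_le_iff (rr_pow_pos n).le] at hx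
    rw [mem_closedBall, dist_pi_le_iff zero_le_one]
    exact fun i => by
      simpa using norm_le_of_mem (IsUltrametricDist.norm_natCast_le_one _ _) (hx i)
  rw [show {x ∈ closedBall 0 1 | ∀ j, ‖MvPolynomial.aeval x (f j)‖ ≤ rr p ^ n} = ⋃ c ∈
    Finset.univ.filter fun c : Fin N → ZMod (p ^ n) => ∀ j, MvPolynomial.aeval c (f j) = 0, B c
    from Set.ext fun x => ?_, measure_biUnion_finset (fun c _ c' _ k => disjoint_left.2
      fun x h h' => ?_) fun _ _ => isClosed_closedBall.measurableSet]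
  · simp only [mN_ball, Finset.sum_const, nsmul_eq_mul, Nat.card_eq_fintype_card,
      Fintype.card_subtype]
  · obtain ⟨z, rfl⟩ := k3 x (k4 c h)
    exact k (((k1 z c).1 h).symm.trans ((k1 z c').1 h'))
  · simp only [mem_iUnion, Finset.mem_filter, Finset.mem_univ, true_and, exists_prop]
    refine ⟨fun ⟨h, h'⟩ => ?_, fun ⟨c, h, h'⟩ => ?_⟩
    · obtain ⟨z, rfl⟩ := k3 x h
      exact ⟨_, fun j => (k2 z j).1 (h' j), (k1 z _).2 rfl⟩
    · obtain ⟨z, rfl⟩ := k3 x (k4 c h')
      exact ⟨k4 c h', fun j => (k2 z j).2 ((k1 z c).1 h' ▸ h j)⟩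

end Pool.Agent.MP_5d9b3c_ag.H48G
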