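import Pool.Agent.MP_5d9b3c_ag.H48G.Tor
import Pool.Agent.MP_5d9b3c_ag.H48G.Chart

/-! Points of the torus of an affine toric variety, and the Jacobian of a toric chart. -/

namespace Pool.Agent.MP_5d9b3c_ag.H48G

open Set Filter Topology Matrix AddMonoidAlgebra

variable {p : ℕ} [hp : Fact p.Prime] {N : ℕ} {t t' : Fin N → ℚ_[p]} {S : AddSubmonoid (Fin N → ℤ)}

theorem ch_zero : ch t 0 = 1 := by simp [ch]

theorem ch_add (h : ∀ l, t l ≠ 0) (a b : Fin N → ℤ) : ch t (a + b) = ch t a * ch t b := by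
  simp only [ch, Pi.add_apply, zpow_add₀ (h _), Finset.prod_mul_distrib]

theorem ch_ne (h : ∀ l, t l ≠ 0) (a : Fin N → ℤ) : ch t a ≠ 0 :=
  Finset.prod_ne_zero_iff.2 fun l _ => zpow_ne_zero _ (h l)

theorem ch_inj (hS : AddSubgroup.closure (S : Set (Fin N → ℤ)) = ⊤)
    (h : ∀ n ∈ S, ch t n = ch t' n) (h1 : ∀ l, t l ≠ 0) (h2 : ∀ l, t' l ≠ 0) : t = t' := by
  have k : ∀ n ∈ AddSubgroup.closure (S : Set (Fin N → ℤ)), ch t n = ch t' n := fun n hn => by
    induction hn using AddSubgroup.closure_induction with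
    | mem n hn => exact h n hn
    | zero => rw [ch_zero, ch_zero]
    | add a b _ _ ha hb => rw [ch_add h1, ch_add h2, ha, hb]
    | neg a _ ha =>
      simp only [ch, Pi.neg_apply, _root_.zpow_neg, Finset.prod_inv_distrib] at ha ⊢
      rw [ha]
  funext l
  simpa [ch, Pi.single_apply] using k (Pi.single l 1) (hS ▸ trivial)

theorem ex_pt (hS : AddSubgroup.closure (S : Set (Fin N → ℤ)) = ⊤) (ω : S → ℚ_[p])
    (h1 : ∀ a b, ω (a + b) = ω a * ω b) (h2 : ∀ a, ω a ≠ 0) :
    ∃ t : Fin N → ℚ_[p], (∀ l, t l ≠ 0) ∧ ∀ n, ω n = ch t n.1 := by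
  have k : ∀ n ∈ AddSubgroup.closure (S : Set (Fin N → ℤ)), ∃ a b : S, n = a - b := fun n hn => by
    induction hn using AddSubgroup.closure_induction with
    | mem n hn => exact ⟨⟨n, hn⟩, 0, by simp⟩
    | zero => exact ⟨0, 0, by simp⟩
    | add _ _ _ _ ha hb =>
      obtain ⟨a, b, rfl⟩ := ha
      obtain ⟨a', b', rfl⟩ := hb
      exact ⟨a + a', b + b', by push_cast; abel⟩
    | neg _ _ ha =>
      obtain ⟨a, b, rfl⟩ := ha
      exact ⟨b, a, by simp⟩
  choose a b e using fun n => k n (hS ▸ trivial)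
  have k1 : ∀ n (x y : S), n = x.1 - y.1 → ω (a n) / ω (b n) = ω x / ω y := fun n x y h => by
    rw [div_eq_div_iff (h2 _) (h2 _), ← h1, ← h1]
    exact congrArg ω (Subtype.ext (by
      have := (e n).symm.trans h
      rw [AddSubmonoid.coe_add, AddSubmonoid.coe_add]
      linear_combination this))
  have h0 : ω 0 = 1 := mul_left_cancel₀ (h2 0) (by rw [← h1, add_zero, mul_one])
  let H : Multiplicative (Fin N → ℤ) →* ℚ_[p] :=
    { toFun := fun n => ω (a n.toAdd) / ω (b n.toAdd)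
      map_one' := (k1 0 0 0 (by simp)).trans (div_self (h2 0))
      map_mul' := fun x y => by
        rw [div_mul_div_comm, ← h1, ← h1]
        exact k1 _ _ _ (by
          rw [toAdd_mul, AddSubmonoid.coe_add, AddSubmonoid.coe_add, add_sub_add_comm, ← e, ← e]) }
  refine ⟨fun l => H (.ofAdd (Pi.single l 1)), fun l => div_ne_zero (h2 _) (h2 _), fun n => ?_⟩
  have : H (.ofAdd n.1) = ω n := (k1 n.1 n 0 (by simp)).trans (by rw [h0, div_one])
  rw [← this, ch, pi_eq_sum_univ' n.1, ofAdd_sum, map_prod]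
  simp only [ofAdd_zsmul, map_zpow, ← pi_eq_sum_univ']

theorem fderiv_ch (h : ∀ l, t l ≠ 0) (n : Fin N → ℤ) (l : Fin N) :
    fderiv ℚ_[p] (ch · n) t (Pi.single l (t l)) = n l * ch t n := by
  have := (HasFDerivAt.finsetProd (u := Finset.univ) fun i _ =>
    (hasDerivAt_zpow (n i) (t i) (.inl (h i))).comp_hasFDerivAt t
      (hasFDerivAt_apply (𝕜 := ℚ_[p]) i t)).fderiv
  simp only [Function.comp_def] at this
  simp only [ch, this, _root_.sum_apply, _root_.smul_apply,
    ContinuousLinearMap.proj_apply, Pi.single_apply, smul_eq_mul, mul_ite, mul_zero,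
    Finset.sum_ite_eq', Finset.mem_univ, if_true]
  rw [← Finset.mul_prod_erase _ _ (Finset.mem_univ l), mul_assoc (n l : ℚ_[p]),
    ← zpow_add_one₀ (h l), sub_add_cancel]
  ring

variable {F A : Type} [Field F] [Algebra F ℚ_[p]] [CommRing A] [Algebra F A] {φ : F[S] →ₐ[F] A}

omit [Algebra F ℚ_[p]] in
theorem reg_ch (h : φ.toRingHom.Etale) (n : S) : φ (single n 1) ∈ nonZeroDivisors A := by
  let := φ.toRingHom.toAlgebra
  have : Algebra.Etale F[S] A := h
  have := Module.Flat.isSMulRegular_of_nonZeroDivisors (M := A) (r := (single n 1 : F[S]))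
    (by
      have : IsDomain F[Fin N → ℤ] := inferInstance
      have := (mapDomain_injective (R := F) S.subtype_injective).isDomain
        (mapDomainRingHom F S.subtype)
      exact mem_nonZeroDivisors_of_ne_zero (by simp))
  exact isRegular_iff_mem_nonZeroDivisors.1 (isLeftRegular_iff_isRegular.1 this)

theorem jac (h : φ.toRingHom.Etale) {D : Fin N → A → A}
    (hD : ∀ l, ((∀ x y, D l (x + y) = D l x + D l y) ∧
      (∀ x y, D l (x * y) = x * D l y + y * D l x) ∧ ∀ c, D l (algebraMap F A c) = 0) ∧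
      ∀ s, D l (φ (single s 1)) = s.1 l • φ (single s 1)) {Ψ : (Fin N → ℚ_[p]) → A →ₐ[F] ℚ_[p]}
    (ht : ∀ l, t l ≠ 0) (h1 : ∀ a, AnalyticAt ℚ_[p] (Ψ · a) t)
    (h2 : ∀ᶠ t' in 𝓝 t, ∀ n, Ψ t' (φ (single n 1)) = ch t' n.1) (x : Fin N → A) :
    ∃ B, HasStrictFDerivAt (𝕜 := ℚ_[p]) (fun t' i => Ψ t' (x i)) B t ∧
      B.det * ∏ l, t l = Ψ t (Matrix.of fun i l => D l (x i)).det := by
  refine ⟨_, (analyticAt_pi_iff.2 fun i => h1 (x i)).hasStrictFDerivAt, ?_⟩
  rw [AlgHom.map_det, ContinuousLinearMap.det, ← LinearMap.det_toMatrix', ← det_diagonal, ← det_mul,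
    fderiv_pi fun i => (h1 _).differentiableAt]
  refine congrArg Matrix.det (Matrix.ext fun i l => sub_eq_zero.1 ?_)
  obtain ⟨d1, d2, d3⟩ := der_fam (fun a => (h1 a).differentiableAt) (Pi.single l (t l))
  obtain ⟨⟨D1, D2, D3⟩, D4⟩ := hD l
  have := unr h (Ψ t) (fun s => fderiv ℚ_[p] (Ψ · s) t (Pi.single l (t l)) - Ψ t (D l s))
    (fun a b => by rw [d1, D1, map_add]; ring)
    (fun a b => by rw [d2, D2, map_add, map_mul, map_mul]; ring) (fun b => by
      induction b using AddMonoidAlgebra.induction_linear with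
      | zero => simpa using congrArg (Ψ t) (D3 0)
      | add a b ha hb => rw [map_add, d1, D1, map_add]; linear_combination ha + hb
      | single n c =>
        rw [show single n c = algebraMap F F[S] c * single n 1 by simp, map_mul, φ.commutes, d2, d3,
          D2, D3, D4, EventuallyEq.fderiv_eq (h2.mono fun _ e => e n), fderiv_ch ht,
          ← h2.self_of_nhds]
        simp) (x i)
  rw [← this, mul_diagonal, show Pi.single l (t l) = t l • (Pi.single l 1 : Fin N → ℚ_[p]) by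
    simp [← Pi.single_smul], map_smul]
  simp [mul_comm]

end Pool.Agent.MP_5d9b3c_ag.H48G
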