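import Pool.Agent.MP_5d9b3c_ag.H48G.Meas
import Pool.Agent.MP_5d9b3c_ag.H48G.Lat

/-! The integral over a box in a toric chart. -/

namespace Pool.Agent.MP_5d9b3c_ag.H48G

open Set Metric MeasureTheory Matrix H72
open scoped ENNReal

variable {p : ℕ} [hp : Fact p.Prime] {N : ℕ}

/-- The character with exponent `n`. -/
noncomputable def ch (t : Fin N → ℚ_[p]) (n : Fin N → ℤ) : ℚ_[p] := ∏ l, t l ^ n l

/-- The points of the torus with valuation `w`. -/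
def Sp (p : ℕ) [Fact p.Prime] (w : Fin N → ℤ) : Set (Fin N → ℚ_[p]) :=
  univ.pi fun l => sphere 0 (rr p ^ w l)

theorem rz_pos (n : ℤ) : 0 < rr p ^ n := zpow_pos rr_pos n

theorem rz_le {a b : ℤ} : rr p ^ a ≤ rr p ^ b ↔ b ≤ a :=
  zpow_le_zpow_iff_right_of_lt_one₀ rr_pos rr_lt_one

theorem norm_rz {x : ℚ_[p]} (hx : x ≠ 0) : ‖x‖ = rr p ^ x.valuation := by
  rw [Padic.norm_eq_zpow_neg_valuation hx, rr, _root_.inv_zpow']

theorem rz_sum (a : Fin N → ℤ) : ∏ l, rr p ^ a l = rr p ^ ∑ l, a l :=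
  (map_prod (zpowersHom ℝˣ (Units.mk0 _ (rr_pos (p := p)).ne')) (fun l => .ofAdd (a l))
    Finset.univ |> congrArg Units.val).symm |> fun h => by simpa [← ofAdd_sum] using h

variable {t : Fin N → ℚ_[p]} {w : Fin N → ℤ}

theorem mem_Sp : t ∈ Sp p w ↔ ∀ l, ‖t l‖ = rr p ^ w l := by simp [Sp]

theorem Sp_ne (h : t ∈ Sp p w) (l : Fin N) : t l ≠ 0 :=
  norm_pos_iff.1 ((mem_Sp.1 h l).symm ▸ rz_pos _)

theorem norm_ch (h : t ∈ Sp p w) (n : Fin N → ℤ) : ‖ch t n‖ = rr p ^ (w ⬝ᵥ n) := by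
  simp only [ch, norm_prod, norm_zpow, mem_Sp.1 h, ← _root_.zpow_mul, rz_sum, dotProduct]

theorem an_ch (h : ∀ l, t l ≠ 0) (n : Fin N → ℤ) : AnalyticAt ℚ_[p] (ch · n) t :=
  Finset.analyticAt_fun_prod _ fun l _ => (analyticAt_pi_iff.1 analyticAt_id l).fun_zpow (h l)

theorem torus {ι : Type} [Finite ι] (s : ι → Fin N → ℤ) (h0 : ∀ w, (∀ g, w ⬝ᵥ s g = 0) → w = 0)
    {V : Finset (Fin N → ℤ)} (hV : ∀ w, (∀ g, 0 ≤ w ⬝ᵥ s g) ↔
      ∃ d : ℕ, 0 < d ∧ d • w ∈ AddSubmonoid.closure (V : Set (Fin N → ℤ))) {m κ : Fin N → ℤ}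
    {T : ℂ} (hT : ∀ v ∈ V, 0 ≤ v ⬝ᵥ m ∧ (rr p : ℂ) ^ (v ⬝ᵥ κ) * T ^ (v ⬝ᵥ m).toNat ≠ 1)
    (c : ι → ℚ_[p]) (e : ℤ) {W : Set (Fin N → ℚ_[p])}
    (hW : ∀ t, t ∈ W ↔ (∀ l, t l ≠ 0) ∧ ∀ g, ‖ch t (s g) - c g‖ ≤ rr p ^ e)
    {Θ : (Fin N → ℚ_[p]) → Fin N → ℚ_[p]} (h1 : InjOn Θ W) (h2 : mN p N (Θ '' W) ≠ ∞) {b : ℝ}
    (hb : 0 < b) (h3 : ∀ t ∈ W, ∃ A, HasStrictFDerivAt (𝕜 := ℚ_[p]) Θ A t ∧
      ‖A.det‖ * ∏ l, ‖t l‖ = b * ‖ch t κ‖) {Φ : (Fin N → ℚ_[p]) → ℝ} {a : ℤ}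
    (h4 : ∀ t ∈ W, Φ (Θ t) = rr p ^ a * ‖ch t m‖) :
    Reg T fun n => (mN p N (Θ '' W ∩ {x | Φ x ≤ rr p ^ n})).toReal := by
  classical
  let E : Set ι := {g | rr p ^ e < ‖c g‖}
  let P : Set (Fin N → ℤ) := {w | (∀ g, (if g ∈ E then (c g).valuation else e) ≤ w ⬝ᵥ s g) ∧
    ∀ g ∈ E, w ⬝ᵥ s g = if g ∈ E then (c g).valuation else e}
  have k0 : ∀ g ∉ E, ∀ x : ℚ_[p], ‖x - c g‖ ≤ rr p ^ e ↔ ‖x‖ ≤ rr p ^ e := fun g hg x =>
    ⟨fun h => by simpa using norm_add_le' h (not_lt.1 hg), fun h => norm_sub_le' h (not_lt.1 hg)⟩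
  have k1 : ∀ w, ∀ t ∈ W ∩ Sp p w, w ∈ P := fun w t ⟨h, h'⟩ => by
    have : ∀ g ∈ E, w ⬝ᵥ s g = if g ∈ E then (c g).valuation else e := fun g hg => by
      have k := norm_eq_of_lt ((((hW t).1 h).2 g).trans_lt hg)
      rw [norm_ch h', norm_rz (norm_pos_iff.1 ((rz_pos e).trans hg))] at k
      rw [if_pos hg, le_antisymm (rz_le.1 k.ge) (rz_le.1 k.le)]
    refine ⟨fun g => ?_, this⟩
    by_cases hg : g ∈ E
    · exact (this g hg).ge
    · rw [if_neg hg, ← rz_le (p := p), ← norm_ch h', ← k0 g hg]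
      exact ((hW t).1 h).2 g
  have k2 : ∀ w ∈ P, ∀ t ∈ Sp p w, t ∈ W ↔ ∀ g ∈ E, ‖ch t (s g) - c g‖ ≤ rr p ^ e :=
    fun w hw t ht => (hW t).trans ⟨fun h g _ => h.2 g, fun h => ⟨Sp_ne ht, fun g => by
      by_cases hg : g ∈ E
      · exact h g hg
      · rw [k0 g hg, norm_ch ht, rz_le]
        simpa [hg] using hw.1 g⟩⟩
  have k3 : ∀ w, IsCompact (W ∩ Sp p w) ∧ IsOpen (W ∩ Sp p w) := fun w => by
    have e1 : W ∩ Sp p w = Sp p w ∩ (fun t g => ch t (s g)) ⁻¹'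
        univ.pi fun g => closedBall (c g) (rr p ^ e) := Set.ext fun t => by
      simp only [mem_inter_iff, hW, mem_preimage, mem_univ_pi, mem_closedBall, dist_eq_norm]
      exact ⟨fun h => ⟨h.2, h.1.2⟩, fun h => ⟨⟨Sp_ne h.1, h.2⟩, h.1⟩⟩
    have e2 : ContinuousOn (fun t g => ch t (s g)) (Sp p w) := continuousOn_pi.2 fun g t ht =>
      (an_ch (Sp_ne ht) _).continuousAt.continuousWithinAt
    have e3 : IsCompact (Sp p w) := isCompact_univ_pi fun _ => isCompact_sphere _ _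
    rw [e1]
    exact ⟨e3.of_isClosed_subset (e2.preimage_isClosed_of_isClosed e3.isClosed
      (isClosed_set_pi fun _ _ => isClosed_closedBall)) inter_subset_left,
      e2.isOpen_inter_preimage (isOpen_set_pi finite_univ fun _ _ =>
        IsUltrametricDist.isOpen_sphere _ (rz_pos _).ne') (isOpen_set_pi finite_univ fun _ _ =>
        IsUltrametricDist.isOpen_closedBall _ (rz_pos _).ne')⟩
  have k4 : ∀ w, MeasurableSet (Θ '' (W ∩ Sp p w)) := fun w => ((k3 w).1.image_of_continuousOn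
    fun t ht => (h3 t ht.1).elim fun _ h => h.1.continuousAt.continuousWithinAt).measurableSet
  have k5 : ∀ w, mN p N (Θ '' (W ∩ Sp p w)) =
      .ofReal (b * rr p ^ (w ⬝ᵥ κ - ∑ l, w l)) * mN p N (W ∩ Sp p w) := fun w =>
    cv (k3 w).1 (k3 w).2 (h1.mono inter_subset_left)
      (by simpa using mul_pos hb (rz_pos _)) fun t ht => (h3 t ht.1).imp fun A h => ⟨h.1, by
        have := h.2
        simp only [mem_Sp.1 ht.2, rz_sum, norm_ch ht.2] at this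
        rw [← ofReal_norm, zpow_sub₀ rr_pos.ne', ← mul_div_assoc, ← this,
          mul_div_cancel_right₀ _ (rz_pos _).ne']⟩
  have k6 : ∀ Q : Set (Fin N → ℤ), mN p N (⋃ w ∈ Q, Θ '' (W ∩ Sp p w)) =
      ∑' w : Q, mN p N (Θ '' (W ∩ Sp p w)) := fun Q =>
    measure_biUnion Q.to_countable (fun w _ w' _ k => disjoint_image_image fun x hx y hy e =>
      k (funext fun l => by
        have := (mem_Sp.1 hx.2 l).symm.trans (h1 hx.1 hy.1 e ▸ mem_Sp.1 hy.2 l)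
        exact le_antisymm (rz_le.1 this.ge) (rz_le.1 this.le))) fun w _ => k4 w
  have k7 : ∀ Q : Set (Fin N → ℤ), ∑' w : Q, mN p N (Θ '' (W ∩ Sp p w)) ≠ ∞ := fun Q =>
    k6 Q ▸ ne_top_of_le_ne_top h2 (measure_mono
      (iUnion₂_subset fun _ _ => image_mono inter_subset_left))
  have v0 : ∀ v ∈ V, ∀ g, 0 ≤ v ⬝ᵥ s g := fun v hv =>
    (hV v).2 ⟨1, one_pos, by simpa using AddSubmonoid.subset_closure hv⟩
  have v1 : ∀ v ∈ AddSubmonoid.closure ((V.filter fun v => ∀ g ∈ E, v ⬝ᵥ s g = 0 :) : Set _),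
      ∀ w ∈ P, w + v ∈ P := fun v hv => by
    induction hv using AddSubmonoid.closure_induction with
    | mem v hv =>
      obtain ⟨v2, v3⟩ := Finset.mem_filter.1 hv
      exact fun w hw => ⟨fun g => add_dotProduct w v _ ▸ (hw.1 g).trans
        (le_add_of_nonneg_right (v0 v v2 g)), fun g hg => by
          rw [add_dotProduct, v3 g hg, add_zero, hw.2 g hg]⟩
    | zero => simp
    | add x y _ _ hx hy => exact fun w hw => add_assoc w x y ▸ hy _ (hx w hw)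
  refine (hs (P := P) (Λ := fun Q => (∑' w : Q, mN p N (Θ '' (W ∩ Sp p w))).toReal)
    (h := fun w => a + w ⬝ᵥ m) (a := fun v => (v ⬝ᵥ m).toNat) (ρ := fun v => (rr p : ℂ) ^ (v ⬝ᵥ κ))
    (fun Q _ Q' _ d => ?_) (V.filter fun v => ∀ g ∈ E, v ⬝ᵥ s g = 0) (fun v hv => ?_) P le_rfl
    (fun σ hσ => ?_) fun w hw c hc _ _ _ => v1 c hc w hw).congr fun n => ?_
  · rw [ENNReal.summable.tsum_union_disjoint (f := fun w => mN p N (Θ '' (W ∩ Sp p w))) d
      ENNReal.summable, ENNReal.toReal_add (k7 _) (k7 _), Complex.ofReal_add]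
  · obtain ⟨v2, v3⟩ := Finset.mem_filter.1 hv
    have v4 := v1 v (AddSubmonoid.subset_closure hv)
    refine ⟨v4, fun w => by rw [add_dotProduct, Int.toNat_of_nonneg (hT v v2).1, add_assoc],
      fun Q hQ => ?_, (hT v v2).2⟩
    have e1 : ∀ w ∈ P, mN p N (Θ '' (W ∩ Sp p (w + v))) =
        .ofReal (rr p ^ (v ⬝ᵥ κ)) * mN p N (Θ '' (W ∩ Sp p w)) := fun w hw => by
      have e2 : toLin' (diagonal fun l => (p : ℚ_[p]) ^ v l) ⁻¹' (W ∩ Sp p (w + v)) =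
          W ∩ Sp p w := Set.ext fun t => by
        have e3 : toLin' (diagonal fun l => (p : ℚ_[p]) ^ v l) t ∈ Sp p (w + v) ↔ t ∈ Sp p w := by
          simp only [mem_Sp, toLin'_apply, mulVec_diagonal, norm_mul, norm_zpow, norm_pp,
            Pi.add_apply, zpow_add₀ (rr_pos (p := p)).ne', mul_comm (rr p ^ w _),
            mul_right_inj' (rz_pos _).ne']
        rw [mem_preimage, mem_inter_iff, mem_inter_iff, ← e3, and_congr_left_iff]
        intro h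
        rw [k2 _ (v4 w hw) _ h, k2 w hw t (e3.1 h)]
        refine forall₂_congr fun g hg => ?_
        have e4 : ∏ l, ((p : ℚ_[p]) ^ v l) ^ s g l = 1 := by
          have := map_prod (zpowersHom ℚ_[p]ˣ (Units.mk0 _ pp_ne))
            (fun l => .ofAdd (v l * s g l)) Finset.univ
          rw [← ofAdd_sum, show ∑ l, v l * s g l = 0 from v3 g hg] at this
          simp only [← _root_.zpow_mul]
          simpa [mul_comm] using (congrArg Units.val this).symm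
        simp only [ch, toLin'_apply, mulVec_diagonal, mul_zpow, Finset.prod_mul_distrib, e4,
          one_mul]
      have e5 := congrArg (· (W ∩ Sp p (w + v))) (map_lin (M := diagonal fun l =>
        (p : ℚ_[p]) ^ v l) (by simpa [Finset.prod_eq_zero_iff] using fun l => zpow_ne_zero _ pp_ne))
      simp only [Measure.smul_apply, smul_eq_mul] at e5
      rw [Measure.map_apply (LinearMap.continuous_of_finiteDimensional _).measurable
        (k3 _).1.measurableSet, e2, det_diagonal, ← ofReal_norm, norm_prod] at e5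
      simp only [norm_zpow, norm_pp, rz_sum] at e5
      rw [k5, k5, ← e5, ← mul_assoc, ← mul_assoc, ← ENNReal.ofReal_mul (mul_pos hb (rz_pos _)).le,
        ← ENNReal.ofReal_mul (rz_pos _).le, mul_assoc, mul_left_comm _ b, ← zpow_add₀ rr_pos.ne',
        ← zpow_add₀ rr_pos.ne']
      congr 4
      simp only [add_dotProduct, Pi.add_apply, Finset.sum_add_distrib]
      ring
    rw [tsum_image (fun w => mN p N (Θ '' (W ∩ Sp p w))) (add_left_injective v).injOn,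
      tsum_congr fun w : Q => e1 w (hQ w.2), ENNReal.tsum_mul_left, ENNReal.toReal_mul,
      ENNReal.toReal_ofReal (rz_pos _).le]
    push_cast
    rfl
  · rw [Finset.coe_filter]
    exact pwo (fun g => AddMonoidHom.mk' (· ⬝ᵥ s g)
      fun x y => add_dotProduct x y _) h0 hV E _ σ (fun n => (hσ n).1) fun n => (hσ n).2
  · rw [← k6]
    congr 3
    refine Set.ext fun x => ⟨?_, fun hx => ?_⟩
    · rintro ⟨⟨t, ht, rfl⟩, h⟩
      have k := mem_Sp.2 fun l => norm_rz (((hW t).1 ht).1 l)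
      refine mem_iUnion₂.2 ⟨_, ⟨k1 _ t ⟨ht, k⟩, ?_⟩, t, ⟨ht, k⟩, rfl⟩
      rwa [mem_ofPred, h4 t ht, norm_ch k, ← zpow_add₀ rr_pos.ne', rz_le] at h
    · obtain ⟨w, hw, t, ht, rfl⟩ := mem_iUnion₂.1 hx
      refine ⟨⟨t, ht.1, rfl⟩, ?_⟩
      rw [mem_ofPred, h4 t ht.1, norm_ch ht.2, ← zpow_add₀ rr_pos.ne', rz_le]
      exact hw.2

end Pool.Agent.MP_5d9b3c_ag.H48G
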